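import Mathlib

/-! # Lower bounds for the exponent in the arithmetic Kakeya conjecture (helper file of helper989) -/

set_option autoImplicit false

namespace Pool.Agent.H989.Slopes

open Finset

/-- the projection `π_r(A) = {x + r y : (x, y) ∈ A}` -/
def proj (r : ℚ) (A : Finset (ℤ × ℤ)) : Finset ℚ :=
  A.image (fun p : ℤ × ℤ => (p.1 : ℚ) + r * (p.2 : ℚ))

/-- the projection `π_∞(A) = {y : (x, y) ∈ A}` -/
def projInf (A : Finset (ℤ × ℤ)) : Finset ℚ := A.image (fun p : ℤ × ℤ => (p.2 : ℚ))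

/-- the largest size of a projection of `A` with slope `∞` or in `S` -/
def big (S : Finset ℚ) (A : Finset (ℤ × ℤ)) : ℕ :=
  max (projInf A).card (S.sup fun r => (proj r A).card)

section poly

open Polynomial
open scoped Classical Pointwise

/-- the polynomial `X ^ 2 + r X` -/
noncomputable def β (r : ℚ) : ℚ[X] := X ^ 2 + C r * X

/-- the set of the `u + (X ^ 2 + r X) v` with `u`, `v` in `P` -/
noncomputable def E (r : ℚ) (P : Finset ℚ[X]) : Finset ℚ[X] :=
  (P ×ˢ P).image (fun p => p.1 + β r * p.2)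

/-- the iterated sets -/
noncomputable def iter (D : Finset ℚ[X]) : List ℚ → Finset ℚ[X]
  | [] => D
  | r :: l => E r (iter D l)

theorem mem_E {r : ℚ} {P : Finset ℚ[X]} {x : ℚ[X]} :
    x ∈ E r P ↔ ∃ u ∈ P, ∃ v ∈ P, u + β r * v = x := by
  unfold E
  simp only [mem_image, mem_product, Prod.exists]
  constructor
  · rintro ⟨u, v, ⟨hu, hv⟩, h⟩
    exact ⟨u, hu, v, hv, h⟩
  · rintro ⟨u, hu, v, hv, h⟩
    exact ⟨u, v, ⟨hu, hv⟩, h⟩

theorem card_E_le (r : ℚ) (P : Finset ℚ[X]) : (E r P).card ≤ P.card ^ 2 := by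
  unfold E
  refine card_image_le.trans ?_
  rw [card_product, sq]

theorem E_comm_sub (r s : ℚ) (P : Finset ℚ[X]) : E r (E s P) ⊆ E s (E r P) := by
  intro x hx
  rw [mem_E] at hx
  obtain ⟨u, hu, v, hv, rfl⟩ := hx
  rw [mem_E] at hu hv
  obtain ⟨u1, hu1, u2, hu2, rfl⟩ := hu
  obtain ⟨v1, hv1, v2, hv2, rfl⟩ := hv
  rw [mem_E]
  refine ⟨u1 + β r * v1, mem_E.2 ⟨u1, hu1, v1, hv1, rfl⟩, u2 + β r * v2,
    mem_E.2 ⟨u2, hu2, v2, hv2, rfl⟩, ?_⟩
  ring

theorem E_comm (r s : ℚ) (P : Finset ℚ[X]) : E r (E s P) = E s (E r P) :=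
  (E_comm_sub r s P).antisymm (E_comm_sub s r P)

theorem E_iter (r : ℚ) (D : Finset ℚ[X]) (l : List ℚ) : E r (iter D l) = iter (E r D) l := by
  induction l with
  | nil => rfl
  | cons s l ih =>
    show E r (E s (iter D l)) = E s (iter (E r D) l)
    rw [E_comm, ih]

theorem card_iter_le (D : Finset ℚ[X]) (l : List ℚ) :
    (iter D l).card ≤ D.card ^ (2 ^ l.length) := by
  induction l with
  | nil => simp [iter]
  | cons s l ih =>
    show (E s (iter D l)).card ≤ _
    refine (card_E_le _ _).trans ?_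
    refine (Nat.pow_le_pow_left ih 2).trans ?_
    rw [← pow_mul, List.length_cons, pow_succ]

theorem iter_add_sub (D : Finset ℚ[X]) (l : List ℚ) :
    iter D l + iter D l ⊆ iter (D + D) l := by
  induction l with
  | nil => exact subset_rfl
  | cons s l ih =>
    intro x hx
    change x ∈ E s (iter D l) + E s (iter D l) at hx
    change x ∈ E s (iter (D + D) l)
    rw [Finset.mem_add] at hx
    obtain ⟨y, hy, z, hz, rfl⟩ := hx
    rw [mem_E] at hy hz
    obtain ⟨y1, hy1, y2, hy2, rfl⟩ := hy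
    obtain ⟨z1, hz1, z2, hz2, rfl⟩ := hz
    rw [mem_E]
    refine ⟨y1 + z1, ih (Finset.add_mem_add hy1 hz1), y2 + z2, ih (Finset.add_mem_add hy2 hz2), ?_⟩
    ring

theorem card_EE_le (r : ℚ) (P : Finset ℚ[X]) :
    (E r (E r P)).card ≤ P.card ^ 2 * (P + P).card := by
  have h : E r (E r P) ⊆ (P ×ˢ P ×ˢ (P + P)).image
      (fun p => p.1 + β r * β r * p.2.1 + β r * p.2.2) := by
    intro x hx
    rw [mem_E] at hx
    obtain ⟨u, hu, v, hv, rfl⟩ := hx
    rw [mem_E] at hu hv
    obtain ⟨u1, hu1, u2, hu2, rfl⟩ := hu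
    obtain ⟨v1, hv1, v2, hv2, rfl⟩ := hv
    rw [mem_image]
    refine ⟨(u1, v2, u2 + v1), ?_, ?_⟩
    · rw [mem_product, mem_product]
      exact ⟨hu1, hv2, Finset.add_mem_add hu2 hv1⟩
    · simp only
      ring
  refine (card_le_card h).trans (card_image_le.trans ?_)
  rw [card_product, card_product, sq, mul_assoc]

theorem card_E_of_mem (D : Finset ℚ[X]) (r : ℚ) (l : List ℚ) (h : r ∈ l) :
    (E r (iter D l)).card ≤ (D.card ^ 2 * (D + D).card) ^ (2 ^ (l.length - 1)) := by
  induction l with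
  | nil => simp at h
  | cons s l ih =>
    rw [List.length_cons, Nat.add_sub_cancel]
    show (E r (E s (iter D l))).card ≤ _
    by_cases hrs : r = s
    · subst hrs
      refine (card_EE_le _ _).trans ?_
      rw [mul_pow]
      refine Nat.mul_le_mul ?_ ?_
      · refine (Nat.pow_le_pow_left (card_iter_le D l) 2).trans ?_
        rw [← pow_mul, ← pow_mul, mul_comm]
      · exact (card_le_card (iter_add_sub D l)).trans (card_iter_le _ _)
    · have hl : r ∈ l := by
        rcases List.mem_cons.1 h with h | h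
        · exact absurd h hrs
        · exact h
      rw [E_comm]
      refine (card_E_le _ _).trans ?_
      refine (Nat.pow_le_pow_left (ih hl) 2).trans ?_
      rw [← pow_mul]
      have hpos : 0 < l.length := List.length_pos_of_mem hl
      have : 2 ^ (l.length - 1) * 2 = 2 ^ l.length := by
        rw [← pow_succ]; congr 1; omega
      rw [this]

/-- the constant polynomials `0, 1, 2, 3` -/
noncomputable def D4 : Finset ℚ[X] := (range 4).image (fun k : ℕ => (k : ℚ[X]))

theorem card_D4_le : D4.card ≤ 4 := by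
  unfold D4
  exact card_image_le.trans (by simp)

theorem card_D4_add_le : (D4 + D4).card ≤ 7 := by
  have h : D4 + D4 ⊆ (range 7).image (fun k : ℕ => (k : ℚ[X])) := by
    intro x hx
    rw [Finset.mem_add] at hx
    obtain ⟨y, hy, z, hz, rfl⟩ := hx
    unfold D4 at hy hz
    rw [mem_image] at hy hz ⊢
    obtain ⟨a, ha, rfl⟩ := hy
    obtain ⟨b, hb, rfl⟩ := hz
    rw [mem_range] at ha hb
    refine ⟨a + b, mem_range.2 (by omega), by push_cast; rfl⟩
  exact (card_le_card h).trans (card_image_le.trans (by simp))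

/-- the list `l` is generic: the projection with slope `-1` is injective -/
def Full (l : List ℚ) : Prop := (iter (E (-1) D4) l).card = 16 ^ (2 ^ l.length)

theorem full_single (r : ℚ) (hr : r ≠ -1) : Full [r] := by
  unfold Full
  show (E r (E (-1) D4)).card = _
  apply le_antisymm
  · refine (card_E_le _ _).trans ?_
    have h : (E (-1) D4).card ≤ 16 :=
      (card_E_le _ _).trans ((Nat.pow_le_pow_left card_D4_le 2).trans (by norm_num))
    refine (Nat.pow_le_pow_left h 2).trans ?_
    simp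
  · let F : ℕ × ℕ × ℕ × ℕ → ℚ[X] := fun p =>
      ((p.1 : ℚ[X]) + β (-1) * (p.2.1 : ℚ[X])) + β r * ((p.2.2.1 : ℚ[X]) + β (-1) * (p.2.2.2 : ℚ[X]))
    have hinj : Function.Injective F := by
      rintro ⟨a, b, c, d⟩ ⟨a', b', c', d'⟩ h
      simp only [F, β] at h
      have h0 := congrArg (eval 0) h
      have h1 := congrArg (eval 1) h
      have h2 := congrArg (eval 2) h
      have h3 := congrArg (eval (-1)) h
      simp only [eval_add, eval_mul, eval_natCast, eval_pow, eval_X, eval_C] at h0 h1 h2 h3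
      have hr1 : r + 1 ≠ 0 := fun hc => hr (by linarith)
      have ha : (a : ℚ) = a' := by linarith
      have hc : (c : ℚ) = c' := by
        apply mul_left_cancel₀ hr1
        linarith
      have hd : (d : ℚ) = d' := by
        have : (r + 1) * (d : ℚ) = (r + 1) * d' := by
          rw [ha, hc] at h2 h3
          linarith
        exact mul_left_cancel₀ hr1 this
      have hb : (b : ℚ) = b' := by
        rw [ha, hc, hd] at h3
        linarith
      have ha' : a = a' := by exact_mod_cast ha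
      have hb' : b = b' := by exact_mod_cast hb
      have hc' : c = c' := by exact_mod_cast hc
      have hd' : d = d' := by exact_mod_cast hd
      rw [ha', hb', hc', hd']
    have hmaps : ∀ p ∈ (range 4 ×ˢ range 4 ×ˢ range 4 ×ˢ range 4), F p ∈ E r (E (-1) D4) := by
      rintro ⟨a, b, c, d⟩ hp
      simp only [mem_product] at hp
      obtain ⟨ha, hb, hc, hd⟩ := hp
      rw [mem_E]
      have hm : ∀ k ∈ range 4, (k : ℚ[X]) ∈ D4 := fun k hk => mem_image_of_mem _ hk
      exact ⟨_, mem_E.2 ⟨_, hm a ha, _, hm b hb, rfl⟩, _, mem_E.2 ⟨_, hm c hc, _, hm d hd, rfl⟩, rfl⟩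
    have := card_le_card_of_injOn F hmaps (hinj.injOn)
    refine le_trans ?_ this
    simp [card_product]

theorem exists_good (P : Finset ℚ[X]) (S : Finset ℚ) (h : P.card ^ 4 < S.card) :
    ∃ r ∈ S, (E r P).card = P.card ^ 2 := by
  by_contra hcon
  push Not at hcon
  have h1 : ∀ r ∈ S, ∃ q : (ℚ[X] × ℚ[X]) × (ℚ[X] × ℚ[X]), q ∈ (P ×ˢ P) ×ˢ (P ×ˢ P) ∧ q.1 ≠ q.2 ∧
      q.1.1 + β r * q.1.2 = q.2.1 + β r * q.2.2 := by
    intro r hr
    have hne := hcon r hr
    have hni : ¬ Set.InjOn (fun p : ℚ[X] × ℚ[X] => p.1 + β r * p.2) ((P ×ˢ P : Finset _) : Set _) := by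
      intro hi
      apply hne
      unfold E
      rw [card_image_of_injOn hi, card_product, sq]
    unfold Set.InjOn at hni
    push Not at hni
    obtain ⟨p, hp, p', hp', he, hne'⟩ := hni
    exact ⟨(p, p'), mem_product.2 ⟨by exact_mod_cast hp, by exact_mod_cast hp'⟩, hne', he⟩
  choose! q hq using h1
  have hle : S.card ≤ ((P ×ˢ P) ×ˢ (P ×ˢ P)).card := by
    apply card_le_card_of_injOn q (fun r hr => (hq r hr).1)
    intro r hr s hs hrs
    obtain ⟨-, hne, he⟩ := hq r hr
    obtain ⟨-, -, he'⟩ := hq s hs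
    rw [← hrs] at he'
    have e : (β r - β s) * ((q r).1.2 - (q r).2.2) = 0 := by linear_combination he - he'
    rcases mul_eq_zero.1 e with e | e
    · have : β r - β s = C (r - s) * X := by
        unfold β
        rw [C_sub]
        ring
      rw [this] at e
      rcases mul_eq_zero.1 e with e | e
      · rw [C_eq_zero] at e
        linarith
      · exact absurd e X_ne_zero
    · exfalso
      apply hne
      have e2 : (q r).1.2 = (q r).2.2 := sub_eq_zero.1 e
      refine Prod.ext ?_ e2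
      rw [e2] at he
      exact add_right_cancel he
  rw [card_product, card_product] at hle
  have : P.card * P.card * (P.card * P.card) = P.card ^ 4 := by ring
  omega

/-- the threshold for the existence of generic lists of length `n + 1` -/
def K (n : ℕ) : ℕ := 16 ^ (4 * 2 ^ n) + n + 1

theorem K_mono (n : ℕ) : K n ≤ K (n + 1) := by
  unfold K
  have : 16 ^ (4 * 2 ^ n) ≤ 16 ^ (4 * 2 ^ (n + 1)) :=
    Nat.pow_le_pow_right (by norm_num) (by rw [pow_succ]; omega)
  omega

theorem exists_group (n : ℕ) (S : Finset ℚ) (hS : (-1 : ℚ) ∉ S) (hc : K n ≤ S.card) (r : ℚ)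
    (hr : r ∈ S) : ∃ l : List ℚ, l.length = n + 1 ∧ l.Nodup ∧ (∀ x ∈ l, x ∈ S) ∧ r ∈ l ∧ Full l := by
  induction n with
  | zero =>
    refine ⟨[r], rfl, List.nodup_singleton r, ?_, List.mem_singleton.2 rfl, full_single r ?_⟩
    · intro x hx
      rw [List.mem_singleton] at hx
      rw [hx]; exact hr
    · rintro rfl
      exact hS hr
  | succ n ih =>
    obtain ⟨l, hl, hnd, hlS, hrl, hfull⟩ := ih ((K_mono n).trans hc)
    obtain ⟨x, hx, hxc⟩ := exists_good (iter (E (-1) D4) l) (S \ l.toFinset) (by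
      unfold Full at hfull
      rw [hfull, ← pow_mul, hl]
      have h1 : S.card - l.toFinset.card ≤ (S \ l.toFinset).card := le_card_sdiff _ _
      have h2 : l.toFinset.card ≤ n + 1 := (List.toFinset_card_le l).trans hl.le
      have h3 : 16 ^ (2 ^ (n + 1) * 4) = 16 ^ (4 * 2 ^ (n + 1)) := by rw [mul_comm]
      unfold K at hc
      rw [h3]
      omega)
    rw [mem_sdiff, List.mem_toFinset] at hx
    refine ⟨x :: l, by simp [hl], List.nodup_cons.2 ⟨hx.2, hnd⟩, ?_, List.mem_cons_of_mem _ hrl, ?_⟩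
    · intro y hy
      rcases List.mem_cons.1 hy with rfl | hy
      · exact hx.1
      · exact hlS y hy
    · unfold Full at hfull ⊢
      show (E x (iter (E (-1) D4) l)).card = _
      rw [hxc, hfull, ← pow_mul, List.length_cons, pow_succ]

theorem exists_eval (F : Finset ℚ[X]) : ∃ x : ℚ, Set.InjOn (fun p : ℚ[X] => eval x p) (F : Set ℚ[X]) := by
  have hne : ∏ p ∈ (F ×ˢ F).filter (fun p => p.1 ≠ p.2), (p.1 - p.2) ≠ 0 := by
    rw [prod_ne_zero_iff]
    intro p hp
    rw [mem_filter] at hp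
    exact sub_ne_zero.2 hp.2
  obtain ⟨x, hx⟩ : ∃ x : ℚ, eval x (∏ p ∈ (F ×ˢ F).filter (fun p => p.1 ≠ p.2), (p.1 - p.2)) ≠ 0 := by
    by_contra hcon
    push Not at hcon
    exact hne (Polynomial.funext (fun r => by rw [hcon r, eval_zero]))
  refine ⟨x, fun p hp q hq h => ?_⟩
  by_contra hpq
  rw [eval_prod, prod_ne_zero_iff] at hx
  have := hx (p, q) (mem_filter.2 ⟨mem_product.2 ⟨by exact_mod_cast hp, by exact_mod_cast hq⟩, hpq⟩)
  rw [eval_sub] at this
  exact this (sub_eq_zero.2 h)

theorem exists_denom (W : Finset ℚ) : ∃ N : ℕ, N ≠ 0 ∧ ∀ w ∈ W, ∃ z : ℤ, (z : ℚ) = N * w := by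
  refine ⟨∏ w ∈ W, w.den, ?_, fun w hw => ?_⟩
  · rw [prod_ne_zero_iff]
    exact fun w _ => w.den_nz
  · obtain ⟨t, ht⟩ := Finset.dvd_prod_of_mem (fun w : ℚ => w.den) hw
    refine ⟨t * w.num, ?_⟩
    rw [ht]
    push_cast
    have : (w.num : ℚ) = w.den * w := by
      rw [mul_comm]; exact (Rat.mul_den_eq_num w).symm
    rw [this]
    ring

theorem exists_int_set (P : Finset ℚ[X]) : ∃ A : Finset (ℤ × ℤ),
    (proj (-1) A).card = (E (-1) P).card ∧ (∀ r, (proj r A).card ≤ (E r P).card) ∧
      (projInf A).card ≤ P.card := by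
  obtain ⟨x, hx⟩ := exists_eval (E (-1) P)
  obtain ⟨N, hN, hW⟩ := exists_denom
    ((P ×ˢ P).image (fun p => eval x (p.1 + X ^ 2 * p.2)) ∪ P.image (fun v => eval x (X * v)))
  choose! g hg using hW
  let A : Finset (ℤ × ℤ) := (P ×ˢ P).image
    (fun p => (g (eval x (p.1 + X ^ 2 * p.2)), g (eval x (X * p.2))))
  have h1 : ∀ p ∈ P ×ˢ P, ((g (eval x (p.1 + X ^ 2 * p.2)) : ℤ) : ℚ) =
      N * eval x (p.1 + X ^ 2 * p.2) := fun p hp =>
    hg _ (mem_union_left _ (mem_image_of_mem (fun p : ℚ[X] × ℚ[X] => eval x (p.1 + X ^ 2 * p.2)) hp))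
  have h2 : ∀ v ∈ P, ((g (eval x (X * v)) : ℤ) : ℚ) = N * eval x (X * v) := fun v hv =>
    hg _ (mem_union_right _ (mem_image_of_mem (fun v : ℚ[X] => eval x (X * v)) hv))
  have hproj : ∀ r, proj r A = (E r P).image (fun q => (N : ℚ) * eval x q) := by
    intro r
    ext z
    unfold proj
    rw [mem_image, mem_image]
    constructor
    · rintro ⟨a, ha, rfl⟩
      rw [mem_image] at ha
      obtain ⟨p, hp, rfl⟩ := ha
      have hp2 := (mem_product.1 hp)
      refine ⟨p.1 + β r * p.2, mem_E.2 ⟨p.1, hp2.1, p.2, hp2.2, rfl⟩, ?_⟩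
      simp only
      rw [h1 p hp, h2 p.2 hp2.2]
      simp only [β, eval_add, eval_mul, eval_pow, eval_X, eval_C]
      ring
    · rintro ⟨q, hq, rfl⟩
      rw [mem_E] at hq
      obtain ⟨u, hu, v, hv, rfl⟩ := hq
      have hp : (u, v) ∈ P ×ˢ P := mem_product.2 ⟨hu, hv⟩
      refine ⟨_, mem_image_of_mem _ hp, ?_⟩
      simp only
      rw [h1 (u, v) hp, h2 v hv]
      simp only [β, eval_add, eval_mul, eval_pow, eval_X, eval_C]
      ring
  have hN' : (N : ℚ) ≠ 0 := by exact_mod_cast hN
  refine ⟨A, ?_, ?_, ?_⟩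
  · rw [hproj]
    apply card_image_of_injOn
    intro p hp q hq h
    exact hx hp hq (mul_left_cancel₀ hN' h)
  · intro r
    rw [hproj]
    exact card_image_le
  · have : projInf A ⊆ P.image (fun v => (N : ℚ) * eval x (X * v)) := by
      intro z hz
      unfold projInf at hz
      rw [mem_image] at hz
      obtain ⟨a, ha, rfl⟩ := hz
      rw [mem_image] at ha
      obtain ⟨p, hp, rfl⟩ := ha
      have hp2 := (mem_product.1 hp)
      rw [mem_image]
      refine ⟨p.2, hp2.2, ?_⟩
      simp only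
      rw [h2 p.2 hp2.2]
    exact (card_le_card this).trans card_image_le

/-- the set of a generic list -/
theorem exists_group_set (n : ℕ) (l : List ℚ) (hl : l.length = n + 1) (hf : Full l) :
    ∃ A : Finset (ℤ × ℤ), (proj (-1) A).card = 2 ^ (8 * 2 ^ n) ∧
      (∀ r, (proj r A).card ≤ 2 ^ (8 * 2 ^ n)) ∧ (∀ r ∈ l, (proj r A).card ≤ 2 ^ (7 * 2 ^ n)) ∧
      (projInf A).card ≤ 2 ^ (7 * 2 ^ n) := by
  obtain ⟨A, h1, h2, h3⟩ := exists_int_set (iter D4 l)
  have hP : (iter D4 l).card ≤ 2 ^ (4 * 2 ^ n) := by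
    refine (card_iter_le D4 l).trans ?_
    refine (Nat.pow_le_pow_left card_D4_le _).trans ?_
    rw [hl, show (4 : ℕ) = 2 ^ 2 by norm_num, ← pow_mul]
    apply Nat.pow_le_pow_right (by norm_num)
    rw [pow_succ]
    omega
  refine ⟨A, ?_, fun r => ?_, fun r hr => ?_, ?_⟩
  · rw [h1, E_iter, hf, hl, show (16 : ℕ) = 2 ^ 4 by norm_num, ← pow_mul]
    congr 1
    rw [pow_succ]
    ring
  · refine (h2 r).trans ((card_E_le _ _).trans ((Nat.pow_le_pow_left hP 2).trans ?_))
    rw [← pow_mul]
    exact (congrArg (2 ^ ·) (by ring)).le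
  · refine (h2 r).trans ((card_E_of_mem D4 r l hr).trans ?_)
    rw [hl, Nat.add_sub_cancel]
    have h112 : D4.card ^ 2 * (D4 + D4).card ≤ 2 ^ 7 :=
      (Nat.mul_le_mul (Nat.pow_le_pow_left card_D4_le 2) card_D4_add_le).trans (by norm_num)
    refine (Nat.pow_le_pow_left h112 _).trans ?_
    rw [← pow_mul]
  · refine h3.trans (hP.trans ?_)
    exact Nat.pow_le_pow_right (by norm_num) (Nat.mul_le_mul_right _ (by norm_num))

end poly

theorem card_proj_neg_one (A : Finset (ℤ × ℤ)) :
    (proj (-1) A).card = (A.image (fun p => p.1 - p.2)).card := by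
  have : proj (-1) A = (A.image (fun p => p.1 - p.2)).image (fun z : ℤ => (z : ℚ)) := by
    unfold proj
    rw [image_image]
    apply image_congr
    intro p _
    simp only [Function.comp]
    push_cast
    ring
  rw [this, card_image_of_injective _ Int.cast_injective]

/-- the product of two sets -/
theorem exists_product (A B : Finset (ℤ × ℤ)) : ∃ C : Finset (ℤ × ℤ),
    (proj (-1) C).card = (proj (-1) A).card * (proj (-1) B).card ∧
    (∀ r, (proj r C).card ≤ (proj r A).card * (proj r B).card) ∧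
    (projInf C).card ≤ (projInf A).card * (projInf B).card := by
  obtain ⟨N, hN⟩ : ∃ N : ℤ, N = 1 + 2 * ∑ p ∈ A, |p.1 - p.2| := ⟨_, rfl⟩
  have hbd : ∀ p ∈ A, 2 * |p.1 - p.2| < N := by
    intro p hp
    have : |p.1 - p.2| ≤ ∑ p ∈ A, |p.1 - p.2| :=
      single_le_sum (f := fun p : ℤ × ℤ => |p.1 - p.2|) (fun i _ => abs_nonneg _) hp
    rw [hN]
    linarith
  let C : Finset (ℤ × ℤ) := (A ×ˢ B).image (fun q => (q.1.1 + N * q.2.1, q.1.2 + N * q.2.2))
  refine ⟨C, ?_, fun r => ?_, ?_⟩
  · rw [card_proj_neg_one, card_proj_neg_one, card_proj_neg_one, ← card_product]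
    symm
    have hC : C.image (fun p => p.1 - p.2) =
        ((A.image (fun p => p.1 - p.2)) ×ˢ (B.image (fun p => p.1 - p.2))).image
          (fun q : ℤ × ℤ => q.1 + N * q.2) := by
      ext z
      simp only [C, mem_image, mem_product, Prod.exists]
      constructor
      · rintro ⟨a, b, ⟨c, d, e, f, ⟨h1, h2⟩, h3⟩, rfl⟩
        simp only [Prod.mk.injEq] at h3
        refine ⟨c - d, e - f, ⟨⟨c, d, h1, rfl⟩, ⟨e, f, h2, rfl⟩⟩, ?_⟩
        rw [← h3.1, ← h3.2]
        ring
      · rintro ⟨a, b, ⟨⟨c, d, h1, rfl⟩, ⟨e, f, h2, rfl⟩⟩, rfl⟩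
        refine ⟨_, _, ⟨c, d, e, f, ⟨h1, h2⟩, rfl⟩, ?_⟩
        ring
    rw [hC]
    symm
    apply card_image_of_injOn
    rintro ⟨a, b⟩ h1 ⟨a', b'⟩ h2 h
    rw [mem_coe, mem_product, mem_image] at h1 h2
    obtain ⟨⟨p, hp, hpa⟩, -⟩ := h1
    obtain ⟨⟨p', hp', hpa'⟩, -⟩ := h2
    simp only at hpa hpa' h
    have e1 := hbd p hp
    have e2 := hbd p' hp'
    rw [hpa] at e1
    rw [hpa'] at e2
    have hb : b = b' := by
      by_contra hbb
      have h3 : 1 ≤ |b - b'| := Int.one_le_abs (sub_ne_zero.2 hbb)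
      have h4 : N * (b - b') = a' - a := by linarith
      have h5 : |a' - a| ≤ |a'| + |a| := abs_sub _ _
      have h6 : |N * (b - b')| = N * |b - b'| := by
        rw [abs_mul, abs_of_pos]
        have := abs_nonneg a
        linarith
      rw [h4] at h6
      have h7 : 0 < N := by
        have := abs_nonneg a
        linarith
      nlinarith
    subst hb
    have ha : a = a' := by linarith
    rw [ha]
  · have : proj r C ⊆ ((proj r A) ×ˢ (proj r B)).image (fun q : ℚ × ℚ => q.1 + N * q.2) := by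
      intro z hz
      unfold proj at hz
      rw [mem_image] at hz
      obtain ⟨c, hc, rfl⟩ := hz
      simp only [C, mem_image, mem_product] at hc
      obtain ⟨q, ⟨hq1, hq2⟩, rfl⟩ := hc
      rw [mem_image]
      refine ⟨((q.1.1 : ℚ) + r * q.1.2, (q.2.1 : ℚ) + r * q.2.2), ?_, ?_⟩
      · rw [mem_product]
        exact ⟨mem_image_of_mem _ hq1, mem_image_of_mem _ hq2⟩
      · push_cast
        ring
    refine (card_le_card this).trans (card_image_le.trans ?_)
    rw [card_product]
  · have : projInf C ⊆ ((projInf A) ×ˢ (projInf B)).image (fun q : ℚ × ℚ => q.1 + N * q.2) := by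
      intro z hz
      unfold projInf at hz
      rw [mem_image] at hz
      obtain ⟨c, hc, rfl⟩ := hz
      simp only [C, mem_image, mem_product] at hc
      obtain ⟨q, ⟨hq1, hq2⟩, rfl⟩ := hc
      rw [mem_image]
      refine ⟨((q.1.2 : ℚ), (q.2.2 : ℚ)), ?_, ?_⟩
      · rw [mem_product]
        exact ⟨mem_image_of_mem _ hq1, mem_image_of_mem _ hq2⟩
      · push_cast
        ring
    refine (card_le_card this).trans (card_image_le.trans ?_)
    rw [card_product]

theorem proj_zero_card (r : ℚ) : (proj r {((0 : ℤ), (0 : ℤ))}).card = 1 := by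
  unfold proj
  rw [image_singleton, card_singleton]

theorem projInf_zero_card : (projInf {((0 : ℤ), (0 : ℤ))}).card = 1 := by
  unfold projInf
  rw [image_singleton, card_singleton]

/-- the product of the sets of a family of generic lists -/
theorem exists_family_set (n : ℕ) (G : List (List ℚ)) (hG : ∀ l ∈ G, l.length = n + 1 ∧ Full l) :
    ∃ A : Finset (ℤ × ℤ), (proj (-1) A).card = (2 ^ (8 * 2 ^ n)) ^ G.length ∧
      (∀ r, (proj r A).card ≤ (2 ^ (8 * 2 ^ n)) ^ G.length) ∧
      (∀ r, (∃ l ∈ G, r ∈ l) → (proj r A).card * 2 ^ 2 ^ n ≤ (2 ^ (8 * 2 ^ n)) ^ G.length) ∧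
      (projInf A).card ≤ (2 ^ (8 * 2 ^ n)) ^ G.length ∧
      (G ≠ [] → (projInf A).card * 2 ^ 2 ^ n ≤ (2 ^ (8 * 2 ^ n)) ^ G.length) := by
  induction G with
  | nil =>
    refine ⟨{((0 : ℤ), (0 : ℤ))}, ?_, ?_, ?_, ?_, ?_⟩
    · rw [proj_zero_card]; simp
    · intro r; rw [proj_zero_card]; simp
    · rintro r ⟨l, hl, -⟩; simp at hl
    · rw [projInf_zero_card]; simp
    · intro h; exact absurd rfl h
  | cons l G ih =>
    obtain ⟨B, b1, b2, b3, b4, b5⟩ := ih (fun x hx => hG x (List.mem_cons_of_mem _ hx))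
    have hl := hG l (List.mem_cons_self ..)
    obtain ⟨A, a1, a2, a3, a4⟩ := exists_group_set n l hl.1 hl.2
    obtain ⟨C, c1, c2, c3⟩ := exists_product A B
    have e78 : 2 ^ (7 * 2 ^ n) * 2 ^ 2 ^ n = 2 ^ (8 * 2 ^ n) := by
      rw [← pow_add]
      congr 1
      ring
    have e7 : 2 ^ (7 * 2 ^ n) ≤ 2 ^ (8 * 2 ^ n) :=
      Nat.pow_le_pow_right (by norm_num) (Nat.mul_le_mul_right _ (by norm_num))
    generalize hV : 2 ^ (8 * 2 ^ n) = V at *
    generalize hW : 2 ^ (7 * 2 ^ n) = W at *
    generalize hU : 2 ^ 2 ^ n = U at *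
    rw [List.length_cons, pow_succ]
    refine ⟨C, ?_, fun r => ?_, fun r hr => ?_, ?_, fun _ => ?_⟩
    · rw [c1, a1, b1, mul_comm]
    · refine (c2 r).trans ?_
      rw [mul_comm (V ^ _)]
      exact Nat.mul_le_mul (a2 r) (b2 r)
    · obtain ⟨l', hl', hr'⟩ := hr
      rcases List.mem_cons.1 hl' with rfl | hl'
      · calc (proj r C).card * U ≤ ((proj r A).card * (proj r B).card) * U :=
              Nat.mul_le_mul_right _ (c2 r)
          _ = ((proj r A).card * U) * (proj r B).card := by ring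
          _ ≤ (W * U) * V ^ G.length :=
              Nat.mul_le_mul (Nat.mul_le_mul_right _ (a3 r hr')) (b2 r)
          _ = V ^ G.length * V := by rw [e78, mul_comm]
      · calc (proj r C).card * U ≤ ((proj r A).card * (proj r B).card) * U :=
              Nat.mul_le_mul_right _ (c2 r)
          _ = ((proj r B).card * U) * (proj r A).card := by ring
          _ ≤ V ^ G.length * V := Nat.mul_le_mul (b3 r ⟨l', hl', hr'⟩) (a2 r)
    · refine c3.trans ?_
      rw [mul_comm (V ^ _)]
      exact Nat.mul_le_mul (a4.trans e7) b4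
    · calc (projInf C).card * U ≤ ((projInf A).card * (projInf B).card) * U :=
            Nat.mul_le_mul_right _ c3
        _ = ((projInf A).card * U) * (projInf B).card := by ring
        _ ≤ (W * U) * V ^ G.length :=
            Nat.mul_le_mul (Nat.mul_le_mul_right _ a4) b4
        _ = V ^ G.length * V := by rw [e78, mul_comm]

/-- covering a set of slopes by few generic lists -/
theorem exists_cover (n : ℕ) (S : Finset ℚ) (hS : (-1 : ℚ) ∉ S) (hc : K n ≤ S.card) :
    ∀ (m : ℕ) (L : Finset ℚ), L ⊆ S → L.card = m → ∃ G : List (List ℚ),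
      (∀ l ∈ G, l.length = n + 1 ∧ Full l) ∧ (∀ r ∈ L, ∃ l ∈ G, r ∈ l) ∧
      G.length * (n + 1) ≤ L.card + (n + 1) * K n := by
  classical
  intro m
  induction m using Nat.strong_induction_on with
  | _ m ih =>
    intro L hL hm
    by_cases hk : L.card < K n
    · have hg : ∀ r : ℚ, ∃ l : List ℚ, r ∈ S → (l.length = n + 1 ∧ Full l ∧ r ∈ l) := by
        intro r
        by_cases hr : r ∈ S
        · obtain ⟨l, h1, -, -, h4, h5⟩ := exists_group n S hS hc r hr
          exact ⟨l, fun _ => ⟨h1, h5, h4⟩⟩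
        · exact ⟨[], fun h => absurd h hr⟩
      choose g hg using hg
      refine ⟨L.toList.map g, ?_, ?_, ?_⟩
      · intro l hl
        rw [List.mem_map] at hl
        obtain ⟨r, hr, rfl⟩ := hl
        have := hg r (hL (Finset.mem_toList.1 hr))
        exact ⟨this.1, this.2.1⟩
      · intro r hr
        exact ⟨g r, List.mem_map.2 ⟨r, Finset.mem_toList.2 hr, rfl⟩, (hg r (hL hr)).2.2⟩
      · rw [List.length_map, Finset.length_toList]
        have : L.card * (n + 1) ≤ K n * (n + 1) := Nat.mul_le_mul_right _ hk.le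
        rw [mul_comm (n + 1)]
        omega
    · push Not at hk
      have hne : L.Nonempty := by
        rw [← Finset.card_pos]
        have : 0 < K n := by unfold K; positivity
        omega
      obtain ⟨r, hr⟩ := hne
      obtain ⟨l, h1, h2, h3, h4, h5⟩ := exists_group n L (fun h => hS (hL h)) hk r hr
      have hcl : l.toFinset.card = n + 1 := by
        rw [List.toFinset_card_of_nodup h2, h1]
      have hsub : l.toFinset ⊆ L := by
        intro x hx
        exact h3 x (List.mem_toFinset.1 hx)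
      have hcard : (L \ l.toFinset).card = L.card - (n + 1) := by
        rw [card_sdiff_of_subset hsub, hcl]
      have hle : n + 1 ≤ L.card := by
        rw [← hcl]; exact card_le_card hsub
      obtain ⟨G, g1, g2, g3⟩ := ih (L \ l.toFinset).card (by omega) (L \ l.toFinset)
        (sdiff_subset.trans hL) rfl
      refine ⟨l :: G, ?_, ?_, ?_⟩
      · intro x hx
        rcases List.mem_cons.1 hx with rfl | hx
        · exact ⟨h1, h5⟩
        · exact g1 x hx
      · intro x hx
        by_cases hxl : x ∈ l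
        · exact ⟨l, List.mem_cons_self .., hxl⟩
        · obtain ⟨l', hl', hxl'⟩ := g2 x (mem_sdiff.2 ⟨hx, fun h => hxl (List.mem_toFinset.1 h)⟩)
          exact ⟨l', List.mem_cons_of_mem _ hl', hxl'⟩
      · rw [hcard] at g3
        rw [List.length_cons, Nat.add_mul, one_mul]
        omega

theorem big_mul_le (S : Finset ℚ) (A : Finset (ℤ × ℤ)) (u M : ℕ)
    (h1 : (projInf A).card * u ≤ M) (h2 : ∀ r ∈ S, (proj r A).card * u ≤ M) :
    big S A * u ≤ M := by
  unfold big
  rcases le_total (projInf A).card (S.sup fun r => (proj r A).card) with h | h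
  · rw [max_eq_right h]
    by_cases hS : S.Nonempty
    · obtain ⟨r, hr, he⟩ := Finset.exists_mem_eq_sup S hS (fun r => (proj r A).card)
      rw [he]
      exact h2 r hr
    · rw [Finset.not_nonempty_iff_eq_empty] at hS
      subst hS
      simp
  · rw [max_eq_left h]
    exact h1

/-- the statement with the parameter `n` -/
theorem main_n (n : ℕ) (S : Finset ℚ) (hS : (-1 : ℚ) ∉ S) (hc : (n + 1) * K n ≤ S.card) :
    ∃ A : Finset (ℤ × ℤ), (big S A : ℝ) ^ (1 + ((n : ℝ) + 1) / (16 * S.card)) <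
      (proj (-1) A).card := by
  have hK0 : 0 < K n := by unfold K; positivity
  have hKS : K n ≤ S.card := le_trans (Nat.le_mul_of_pos_left _ (by omega)) hc
  obtain ⟨G, g1, g2, g3⟩ := exists_cover n S hS hKS S.card S subset_rfl rfl
  have hSne : S.Nonempty := by
    rw [← Finset.card_pos]; omega
  obtain ⟨r₀, hr₀⟩ := hSne
  have hGne : G ≠ [] := by
    rintro rfl
    obtain ⟨l, hl, -⟩ := g2 r₀ hr₀
    simp at hl
  obtain ⟨A, a1, a2, a3, a4, a5⟩ := exists_family_set n G g1
  have hbig := big_mul_le S A _ _ (a5 hGne) (fun r hr => a3 r (g2 r hr))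
  refine ⟨A, ?_⟩
  have hT : 1 ≤ G.length := List.length_pos_iff.2 hGne
  have hT2 : G.length * (n + 1) ≤ 2 * S.card := by omega
  rw [a1]
  generalize G.length = T at *
  generalize hh : 2 ^ n = h at *
  have hh1 : 1 ≤ h := by rw [← hh]; exact Nat.one_le_two_pow
  have hcS : (0 : ℝ) < S.card := by
    have : 0 < S.card := by omega
    exact_mod_cast this
  have hTr : (1 : ℝ) ≤ T := by exact_mod_cast hT
  have hhr : (1 : ℝ) ≤ h := by exact_mod_cast hh1
  have hδ : ((n : ℝ) + 1) / (16 * S.card) ≤ 1 / (8 * T) := by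
    rw [div_le_div_iff₀ (by positivity) (by positivity)]
    have : (T : ℝ) * (n + 1) ≤ 2 * S.card := by exact_mod_cast hT2
    nlinarith
  have hδ0 : 0 ≤ ((n : ℝ) + 1) / (16 * S.card) := by positivity
  generalize ((n : ℝ) + 1) / (16 * S.card) = δ at *
  have hb : (big S A : ℝ) ≤ (2 : ℝ) ^ (((8 : ℝ) * T - 1) * h) := by
    have h1 : (big S A : ℝ) * 2 ^ (h : ℝ) ≤ (2 : ℝ) ^ ((8 : ℝ) * h * T) := by
      have h2 : (big S A : ℝ) * 2 ^ h ≤ (2 ^ (8 * h)) ^ T := by exact_mod_cast hbig
      rw [Real.rpow_natCast]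
      refine h2.trans (le_of_eq ?_)
      rw [← pow_mul, ← Real.rpow_natCast]
      congr 1
      push_cast
      ring
    have h3 : (2 : ℝ) ^ (((8 : ℝ) * T - 1) * h) * 2 ^ (h : ℝ) = (2 : ℝ) ^ ((8 : ℝ) * h * T) := by
      rw [← Real.rpow_add (by norm_num)]
      congr 1
      ring
    have h4 : (0 : ℝ) < 2 ^ (h : ℝ) := Real.rpow_pos_of_pos (by norm_num) _
    rw [← h3] at h1
    exact le_of_mul_le_mul_right h1 h4
  have hexp : ((8 : ℝ) * T - 1) * h * (1 + δ) < 8 * h * T := by
    have h5 : 0 < 8 * (T : ℝ) - 1 := by linarith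
    have h6 : (8 * (T : ℝ) - 1) * (1 + δ) < 8 * T := by
      have h7 : (8 * (T : ℝ) - 1) * δ ≤ (8 * T - 1) * (1 / (8 * T)) :=
        mul_le_mul_of_nonneg_left hδ h5.le
      have h8 : (8 * (T : ℝ) - 1) * (1 / (8 * T)) = 1 - 1 / (8 * T) := by
        field_simp
      have h9 : 0 < 1 / (8 * (T : ℝ)) := by positivity
      nlinarith
    nlinarith
  calc (big S A : ℝ) ^ (1 + δ) ≤ ((2 : ℝ) ^ (((8 : ℝ) * T - 1) * h)) ^ (1 + δ) :=
        Real.rpow_le_rpow (by positivity) hb (by linarith)
    _ = (2 : ℝ) ^ (((8 : ℝ) * T - 1) * h * (1 + δ)) := by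
        rw [← Real.rpow_mul (by norm_num)]
    _ < (2 : ℝ) ^ ((8 : ℝ) * h * T) := Real.rpow_lt_rpow_of_exponent_lt (by norm_num) hexp
    _ = (((2 ^ (8 * h)) ^ T : ℕ) : ℝ) := by
        push_cast
        rw [← pow_mul, ← Real.rpow_natCast]
        congr 1
        push_cast
        ring

/-! ### almost invariant sets -/

/-- the product of the sets of a finite family -/
theorem exists_prod_family {ι : Type} [DecidableEq ι] (s : Finset ι) (F : ι → Finset (ℤ × ℤ)) :
    ∃ C : Finset (ℤ × ℤ), (proj (-1) C).card = ∏ i ∈ s, (proj (-1) (F i)).card ∧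
      (∀ r, (proj r C).card ≤ ∏ i ∈ s, (proj r (F i)).card) ∧
      (projInf C).card ≤ ∏ i ∈ s, (projInf (F i)).card := by
  induction s using Finset.induction_on with
  | empty =>
    refine ⟨{((0 : ℤ), (0 : ℤ))}, ?_, ?_, ?_⟩
    · rw [proj_zero_card]; simp
    · intro r; rw [proj_zero_card]; simp
    · rw [projInf_zero_card]; simp
  | insert i s hi ih =>
    obtain ⟨B, b1, b2, b3⟩ := ih
    obtain ⟨C, c1, c2, c3⟩ := exists_product (F i) B
    refine ⟨C, ?_, fun r => ?_, ?_⟩
    · rw [prod_insert hi, c1, b1]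
    · rw [prod_insert hi]
      exact (c2 r).trans (Nat.mul_le_mul_left _ (b2 r))
    · rw [prod_insert hi]
      exact c3.trans (Nat.mul_le_mul_left _ b3)

/-- the points `d` of `D` which move from `d` to the place `d + t` of a point which does not move -/
def coll (D U : Finset ℚ) (t : ℚ) : Finset ℚ :=
  D.filter (fun d => d ∈ U ∧ d + t ∈ D ∧ d + t ∉ U)

theorem card_image_le_sub (D U : Finset ℚ) (t : ℚ) :
    (D.image (fun d => d + (if d ∈ U then t else 0))).card + (coll D U t).card ≤ D.card := by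
  have hsub : D.image (fun d => d + (if d ∈ U then t else 0)) ⊆
      (D \ coll D U t).image (fun d => d + (if d ∈ U then t else 0)) := by
    intro z hz
    rw [mem_image] at hz ⊢
    obtain ⟨d, hd, rfl⟩ := hz
    by_cases hc : d ∈ coll D U t
    · have hc' := hc
      unfold coll at hc'
      rw [mem_filter] at hc'
      obtain ⟨-, h1, h2, h3⟩ := hc'
      refine ⟨d + t, mem_sdiff.2 ⟨h2, ?_⟩, ?_⟩
      · intro h
        unfold coll at h
        rw [mem_filter] at h
        exact h3 h.2.1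
      · rw [if_neg h3, if_pos h1, add_zero]
    · exact ⟨d, mem_sdiff.2 ⟨hd, hc⟩, rfl⟩
  have h1 := (card_le_card hsub).trans card_image_le
  have hc : coll D U t ⊆ D := filter_subset _ _
  have h2 : (D \ coll D U t).card = D.card - (coll D U t).card := card_sdiff_of_subset hc
  have h3 := card_le_card hc
  omega

theorem exists_shift_set (D : Finset ℚ) (U : Finset ℚ) : ∃ A : Finset (ℤ × ℤ),
    (proj (-1) A).card = D.card ∧
    (∀ r : ℚ, (proj r A).card + (coll D U (r + 1)).card ≤ D.card) ∧ (projInf A).card ≤ 2 := by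
  obtain ⟨L, hL, hD⟩ := exists_denom D
  choose! g hg using hD
  have hL' : (L : ℚ) ≠ 0 := by exact_mod_cast hL
  let A : Finset (ℤ × ℤ) := D.image (fun d => if d ∈ U then (g d + L, (L : ℤ)) else (g d, 0))
  have hproj : ∀ r, proj r A =
      (D.image (fun d => d + (if d ∈ U then (r + 1) else 0))).image (fun x => (L : ℚ) * x) := by
    intro r
    unfold proj
    rw [image_image, image_image]
    apply image_congr
    intro d hd
    have hd' := hg d (by exact_mod_cast hd)
    simp only [Function.comp]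
    by_cases hU : d ∈ U
    · simp only [hU, if_true]
      push_cast
      rw [hd']
      ring
    · simp only [hU, if_false]
      push_cast
      rw [hd']
      ring
  have hinj : Function.Injective (fun x : ℚ => (L : ℚ) * x) := mul_right_injective₀ hL'
  refine ⟨A, ?_, fun r => ?_, ?_⟩
  · rw [hproj, card_image_of_injective _ hinj]
    have : D.image (fun d => d + (if d ∈ U then ((-1 : ℚ) + 1) else 0)) = D := by
      ext z
      rw [mem_image]
      constructor
      · rintro ⟨d, hd, rfl⟩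
        simpa using hd
      · intro hz
        exact ⟨z, hz, by simp⟩
    rw [this]
  · rw [hproj, card_image_of_injective _ hinj]
    exact card_image_le_sub D U (r + 1)
  · have : projInf A ⊆ {(L : ℚ), 0} := by
      intro z hz
      unfold projInf at hz
      rw [mem_image] at hz
      obtain ⟨a, ha, rfl⟩ := hz
      rw [mem_image] at ha
      obtain ⟨d, hd, rfl⟩ := ha
      rw [mem_insert, mem_singleton]
      by_cases hU : d ∈ U
      · left; simp [hU]
      · right; simp [hU]
    exact (card_le_card this).trans card_le_two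

theorem card_powerset_filter (D : Finset ℚ) (a b : ℚ) (ha : a ∈ D) (hb : b ∈ D) (hab : a ≠ b) :
    2 ^ D.card ≤ 4 * (D.powerset.filter (fun U => a ∈ U ∧ b ∉ U)).card := by
  have hinj : Set.InjOn (fun V : Finset ℚ => insert a V)
      (((D.erase a).erase b).powerset : Set (Finset ℚ)) := by
    intro V hV W hW h
    rw [mem_coe, mem_powerset] at hV hW
    have haV : a ∉ V := fun h => by simpa using hV h
    have haW : a ∉ W := fun h => by simpa using hW h
    have := congrArg (fun X : Finset ℚ => X.erase a) h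
    simpa [erase_insert haV, erase_insert haW] using this
  have hmaps : ∀ V ∈ ((D.erase a).erase b).powerset, insert a V ∈
      D.powerset.filter (fun U => a ∈ U ∧ b ∉ U) := by
    intro V hV
    rw [mem_powerset] at hV
    rw [mem_filter, mem_powerset]
    refine ⟨?_, mem_insert_self _ _, ?_⟩
    · intro x hx
      rcases mem_insert.1 hx with rfl | hx
      · exact ha
      · exact mem_of_mem_erase (mem_of_mem_erase (hV hx))
    · intro h
      rcases mem_insert.1 h with h | h
      · exact hab h.symm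
      · have := hV h
        simp at this
  have h1 := card_le_card_of_injOn _ hmaps hinj
  have h2 : ((D.erase a).erase b).card = D.card - 2 := by
    rw [card_erase_of_mem (mem_erase.2 ⟨hab.symm, hb⟩), card_erase_of_mem ha]
    omega
  have h3 : 2 ≤ D.card := by
    have : ({a, b} : Finset ℚ) ⊆ D := by
      intro x hx
      rcases mem_insert.1 hx with rfl | hx
      · exact ha
      · rw [mem_singleton] at hx
        rw [hx]; exact hb
    have h4 := card_le_card this
    rwa [card_pair hab] at h4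
  rw [card_powerset, h2] at h1
  have h5 : 2 ^ D.card = 4 * 2 ^ (D.card - 2) := by
    have : D.card = 2 + (D.card - 2) := by omega
    rw [this, pow_add]
    norm_num
  rw [h5]
  exact Nat.mul_le_mul_left _ h1

theorem sum_coll (D : Finset ℚ) (t : ℚ) (ht : t ≠ 0)
    (h : D.card ≤ 2 * (D.filter (fun d => d + t ∈ D)).card) :
    2 ^ D.card * D.card ≤ 8 * ∑ U ∈ D.powerset, (coll D U t).card := by
  have h1 : ∑ U ∈ D.powerset, (coll D U t).card =
      ∑ d ∈ D.filter (fun d => d + t ∈ D), (D.powerset.filter (fun U => d ∈ U ∧ d + t ∉ U)).card := by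
    have e1 : ∀ U ∈ D.powerset, (coll D U t).card =
        ∑ d ∈ D.filter (fun d => d + t ∈ D), if d ∈ U ∧ d + t ∉ U then 1 else 0 := by
      intro U _
      rw [← card_filter, filter_filter]
      unfold coll
      congr 1
      ext d
      simp only [mem_filter]
      tauto
    rw [sum_congr rfl e1, sum_comm]
    apply sum_congr rfl
    intro d _
    rw [card_filter]
  rw [h1]
  have h2 : ∀ d ∈ D.filter (fun d => d + t ∈ D),
      2 ^ D.card ≤ 4 * (D.powerset.filter (fun U => d ∈ U ∧ d + t ∉ U)).card := by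
    intro d hd
    rw [mem_filter] at hd
    exact card_powerset_filter D d (d + t) hd.1 hd.2 (fun h => ht (by linarith))
  have h3 := sum_le_sum h2
  rw [sum_const, smul_eq_mul, ← mul_sum] at h3
  have h4 : 2 ^ D.card * D.card ≤ 2 ^ D.card * (2 * (D.filter (fun d => d + t ∈ D)).card) :=
    Nat.mul_le_mul_left _ h
  nlinarith

/-- almost invariant sets of differences give bad exponents -/
theorem main_D (S : Finset ℚ) (hS : (-1 : ℚ) ∉ S) (D : Finset ℚ) (hD : 3 ≤ D.card)
    (h : ∀ r ∈ S, D.card ≤ 2 * (D.filter (fun d => d + (r + 1) ∈ D)).card) :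
    ∃ A : Finset (ℤ × ℤ), (big S A : ℝ) ^ (1 + 1 / (8 * Real.log D.card)) <
      (proj (-1) A).card := by
  choose F f1 f2 f3 using exists_shift_set D
  obtain ⟨A, a1, a2, a3⟩ := exists_prod_family D.powerset F
  refine ⟨A, ?_⟩
  simp only [f1, prod_const, card_powerset] at a1
  rw [a1]
  have hNr : (3 : ℝ) ≤ D.card := by exact_mod_cast hD
  have hN0 : (0 : ℝ) < D.card := by linarith
  obtain ⟨ℓ, hℓ⟩ : ∃ ℓ : ℝ, ℓ = Real.log D.card := ⟨_, rfl⟩
  have hlog2 : Real.log 2 + 1 / 8 ≤ ℓ := by
    have e : Real.log 2 + Real.log (3 / 2) ≤ ℓ := by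
      rw [← Real.log_mul (by norm_num) (by norm_num), hℓ]
      exact Real.log_le_log (by norm_num) (by norm_num; linarith)
    have e2 : (1 : ℝ) / 8 ≤ Real.log (3 / 2) := by
      have := Real.one_sub_inv_le_log_of_pos (show (0 : ℝ) < 3 / 2 by norm_num)
      norm_num at this ⊢
      linarith
    linarith
  have hlog2' : 0 < Real.log 2 := Real.log_pos (by norm_num)
  have hℓ0 : 1 / 8 < ℓ := by linarith
  obtain ⟨Q, hQ⟩ : ∃ Q : ℝ, Q = 2 ^ D.card := ⟨_, rfl⟩
  have hQ0 : 0 < Q := by rw [hQ]; positivity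
  have hexpN : Real.exp ℓ = D.card := by rw [hℓ, Real.exp_log hN0]
  -- the projections with slopes in `S`
  have hr : ∀ r ∈ S, ((proj r A).card : ℝ) ≤ Real.exp (Q * (ℓ - 1 / 8)) := by
    intro r hr
    have h1 : ((proj r A).card : ℝ) ≤ ∏ U ∈ D.powerset, ((proj r (F U)).card : ℝ) := by
      exact_mod_cast a2 r
    have h2 : ∀ U ∈ D.powerset, ((proj r (F U)).card : ℝ) ≤
        Real.exp (ℓ - (coll D U (r + 1)).card / D.card) := by
      intro U _
      have e1 : ((proj r (F U)).card : ℝ) + (coll D U (r + 1)).card ≤ D.card := by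
        exact_mod_cast f2 U r
      rw [Real.exp_sub, hexpN, le_div_iff₀ (Real.exp_pos _)]
      have e2 : Real.exp ((coll D U (r + 1)).card / D.card : ℝ) * (1 - (coll D U (r + 1)).card / D.card : ℝ) ≤ 1 := by
        have := Real.add_one_le_exp (-((coll D U (r + 1)).card / D.card : ℝ))
        have e3 : Real.exp ((coll D U (r + 1)).card / D.card : ℝ) * Real.exp (-((coll D U (r + 1)).card / D.card : ℝ)) = 1 := by
          rw [← Real.exp_add]; simp
        have e4 := mul_le_mul_of_nonneg_left this (Real.exp_pos ((coll D U (r + 1)).card / D.card : ℝ)).le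
        rw [e3] at e4
        linarith
      have e5 : ((proj r (F U)).card : ℝ) ≤ D.card * (1 - (coll D U (r + 1)).card / D.card : ℝ) := by
        have : (D.card : ℝ) * (1 - (coll D U (r + 1)).card / D.card : ℝ) = D.card - (coll D U (r + 1)).card := by
          field_simp
        rw [this]
        linarith
      calc ((proj r (F U)).card : ℝ) * Real.exp ((coll D U (r + 1)).card / D.card : ℝ)
          ≤ (D.card * (1 - (coll D U (r + 1)).card / D.card : ℝ)) * Real.exp ((coll D U (r + 1)).card / D.card : ℝ) :=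
            mul_le_mul_of_nonneg_right e5 (Real.exp_pos _).le
        _ = D.card * (Real.exp ((coll D U (r + 1)).card / D.card : ℝ) * (1 - (coll D U (r + 1)).card / D.card : ℝ)) := by ring
        _ ≤ D.card * 1 := mul_le_mul_of_nonneg_left e2 hN0.le
        _ = D.card := mul_one _
    refine h1.trans ((prod_le_prod (fun U _ => by positivity) h2).trans ?_)
    rw [← Real.exp_sum]
    apply Real.exp_le_exp.2
    rw [sum_sub_distrib, sum_const, card_powerset, nsmul_eq_mul, ← sum_div]
    have h3 := sum_coll D (r + 1) (fun h0 => hS (by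
      have : r = -1 := by linarith
      rwa [this] at hr)) (h r hr)
    have h4 : Q * D.card ≤ 8 * ∑ U ∈ D.powerset, ((coll D U (r + 1)).card : ℝ) := by
      rw [hQ]
      exact_mod_cast h3
    have h5 : Q / 8 ≤ (∑ U ∈ D.powerset, ((coll D U (r + 1)).card : ℝ)) / D.card := by
      rw [div_le_div_iff₀ (by norm_num) hN0]
      linarith
    push_cast
    rw [← hQ]
    linarith
  have hinf : ((projInf A).card : ℝ) ≤ Real.exp (Q * (ℓ - 1 / 8)) := by
    have h1 : (projInf A).card ≤ 2 ^ (2 ^ D.card) := by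
      refine a3.trans ?_
      refine (prod_le_prod' (fun U _ => f3 U)).trans ?_
      rw [prod_const, card_powerset]
    have h2 : ((projInf A).card : ℝ) ≤ (2 : ℝ) ^ (2 ^ D.card) := by exact_mod_cast h1
    refine h2.trans ?_
    have h3 : (2 : ℝ) ^ (2 ^ D.card) = Real.exp (Q * Real.log 2) := by
      rw [mul_comm, Real.exp_mul, Real.exp_log (by norm_num), hQ, ← Real.rpow_natCast]
      push_cast
      rfl
    rw [h3]
    apply Real.exp_le_exp.2
    exact mul_le_mul_of_nonneg_left (by linarith) hQ0.le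
  have hbig : (big S A : ℝ) ≤ Real.exp (Q * (ℓ - 1 / 8)) := by
    unfold big
    rw [Nat.cast_max]
    apply max_le hinf
    by_cases hSn : S.Nonempty
    · obtain ⟨r, hr', he⟩ := Finset.exists_mem_eq_sup S hSn (fun r => (proj r A).card)
      rw [he]
      exact hr r hr'
    · rw [Finset.not_nonempty_iff_eq_empty] at hSn
      subst hSn
      simp
      positivity
  rw [← hℓ]
  have hδ : 0 ≤ 1 + 1 / (8 * ℓ) := by
    have : 0 < ℓ := by linarith
    positivity
  calc (big S A : ℝ) ^ (1 + 1 / (8 * ℓ)) ≤ (Real.exp (Q * (ℓ - 1 / 8))) ^ (1 + 1 / (8 * ℓ)) :=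
        Real.rpow_le_rpow (by positivity) hbig hδ
    _ = Real.exp (Q * (ℓ - 1 / 8) * (1 + 1 / (8 * ℓ))) := by rw [← Real.exp_mul]
    _ < Real.exp (Q * ℓ) := by
        apply Real.exp_lt_exp.2
        have hl : 0 < ℓ := by linarith
        have e : Q * (ℓ - 1 / 8) * (1 + 1 / (8 * ℓ)) = Q * ℓ - Q / (64 * ℓ) := by
          field_simp
          ring
        rw [e]
        have : 0 < Q / (64 * ℓ) := by positivity
        linarith
    _ = ((D.card ^ 2 ^ D.card : ℕ) : ℝ) := by
        rw [mul_comm, Real.exp_mul, hexpN, hQ]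
        have e := Real.rpow_natCast (D.card : ℝ) (2 ^ D.card)
        push_cast at e ⊢
        exact e

/-! ### amplification -/

/-- the inequality with the exponent `κ` fails for the slopes `S` and `∞`, even up to a constant -/
def Fails (S : Finset ℚ) (κ : ℝ) : Prop :=
  ∀ M : ℝ, ∃ A : Finset (ℤ × ℤ), M * (big S A : ℝ) ^ κ < (proj (-1) A).card

theorem big_product_le (S : Finset ℚ) (A B C : Finset (ℤ × ℤ))
    (h2 : ∀ r, (proj r C).card ≤ (proj r A).card * (proj r B).card)
    (h3 : (projInf C).card ≤ (projInf A).card * (projInf B).card) :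
    big S C ≤ big S A * big S B := by
  have hA : ∀ r ∈ S, (proj r A).card ≤ big S A := fun r hr =>
    (le_sup (f := fun r => (proj r A).card) hr).trans (le_max_right _ _)
  have hB : ∀ r ∈ S, (proj r B).card ≤ big S B := fun r hr =>
    (le_sup (f := fun r => (proj r B).card) hr).trans (le_max_right _ _)
  have hA' : (projInf A).card ≤ big S A := le_max_left _ _
  have hB' : (projInf B).card ≤ big S B := le_max_left _ _
  unfold big
  apply max_le
  · exact h3.trans (Nat.mul_le_mul hA' hB')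
  · apply Finset.sup_le
    intro r hr
    exact (h2 r).trans (Nat.mul_le_mul (hA r hr) (hB r hr))

theorem exists_pow_set (S : Finset ℚ) (A : Finset (ℤ × ℤ)) (t : ℕ) :
    ∃ C : Finset (ℤ × ℤ), (proj (-1) C).card = (proj (-1) A).card ^ t ∧
      big S C ≤ big S A ^ t := by
  induction t with
  | zero =>
    refine ⟨{((0 : ℤ), (0 : ℤ))}, ?_, ?_⟩
    · rw [proj_zero_card]; simp
    · unfold big
      apply max_le
      · rw [projInf_zero_card]; simp
      · apply Finset.sup_le
        intro r _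
        rw [proj_zero_card]; simp
  | succ t ih =>
    obtain ⟨B, b1, b2⟩ := ih
    obtain ⟨C, c1, c2, c3⟩ := exists_product B A
    refine ⟨C, ?_, ?_⟩
    · rw [c1, b1, pow_succ]
    · refine (big_product_le S B A C c2 c3).trans ?_
      rw [pow_succ]
      exact Nat.mul_le_mul_right _ b2

theorem fails_of_exists (S : Finset ℚ) (κ : ℝ) (hκ : 0 ≤ κ) (A : Finset (ℤ × ℤ))
    (h : (big S A : ℝ) ^ κ < (proj (-1) A).card) : Fails S κ := by
  intro M
  have hx0 : 0 ≤ (big S A : ℝ) ^ κ := by positivity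
  obtain ⟨t, ht⟩ : ∃ t : ℕ, M * ((big S A : ℝ) ^ κ) ^ t < ((proj (-1) A).card : ℝ) ^ t := by
    rcases hx0.eq_or_lt with h0 | h0
    · refine ⟨1, ?_⟩
      rw [← h0] at h ⊢
      simpa using h
    · have hlt : 1 < ((proj (-1) A).card : ℝ) / (big S A : ℝ) ^ κ := (one_lt_div h0).2 h
      obtain ⟨t, ht⟩ := pow_unbounded_of_one_lt M hlt
      refine ⟨t, ?_⟩
      rw [div_pow, lt_div_iff₀ (by positivity)] at ht
      exact ht
  obtain ⟨C, c1, c2⟩ := exists_pow_set S A t
  rcases le_or_gt M 0 with hM | hM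
  · refine ⟨A, lt_of_le_of_lt ?_ (lt_of_le_of_lt hx0 h)⟩
    exact mul_nonpos_of_nonpos_of_nonneg hM hx0
  refine ⟨C, lt_of_le_of_lt ?_ (by rw [c1]; push_cast; exact ht)⟩
  apply mul_le_mul_of_nonneg_left _ hM.le
  calc (big S C : ℝ) ^ κ ≤ ((big S A : ℝ) ^ t) ^ κ :=
        Real.rpow_le_rpow (by positivity) (by exact_mod_cast c2) hκ
    _ = ((big S A : ℝ) ^ κ) ^ t := by
        rw [← Real.rpow_natCast, ← Real.rpow_natCast, ← Real.rpow_mul (by positivity),
          ← Real.rpow_mul (by positivity), mul_comm]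

theorem exists_mono (S : Finset ℚ) (κ κ' : ℝ) (hκ : 0 < κ') (hle : κ' ≤ κ) (A : Finset (ℤ × ℤ))
    (h : (big S A : ℝ) ^ κ < (proj (-1) A).card) : (big S A : ℝ) ^ κ' < (proj (-1) A).card := by
  refine lt_of_le_of_lt ?_ h
  rcases Nat.eq_zero_or_pos (big S A) with h0 | h0
  · rw [h0]
    rw [Nat.cast_zero, Real.zero_rpow hκ.ne', Real.zero_rpow (hκ.trans_le hle).ne']
  · exact Real.rpow_le_rpow_of_exponent_le (by exact_mod_cast h0) hle

/-! ### all sets of slopes -/

theorem loglog_bound (S : Finset ℚ) (hS : (-1 : ℚ) ∉ S) (hc : 2 ^ 2 ^ 10 ≤ S.card) :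
    Fails S (1 + Real.log (Real.log S.card) / (32 * S.card)) := by
  generalize hk : S.card = k at *
  obtain ⟨y, hy⟩ : ∃ y, y = Nat.log 2 (Nat.log 2 k) := ⟨_, rfl⟩
  have hk0 : k ≠ 0 := by
    have : 0 < 2 ^ 2 ^ 10 := by positivity
    omega
  have hlog : 2 ^ 10 ≤ Nat.log 2 k := (Nat.le_log_iff_pow_le (by norm_num) hk0).2 hc
  have hy10 : 10 ≤ y := by
    rw [hy]
    exact (Nat.le_log_iff_pow_le (by norm_num) (by omega)).2 hlog
  have hy1 : 2 ^ y ≤ Nat.log 2 k := by
    rw [hy]
    exact Nat.pow_log_le_self 2 (by omega)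
  have hy2 : 2 ^ 2 ^ y ≤ k := (Nat.pow_le_pow_right (by norm_num) hy1).trans
    (Nat.pow_log_le_self 2 hk0)
  have hy3 : k < 2 ^ 2 ^ (y + 1) := by
    have h1 : Nat.log 2 k < 2 ^ (y + 1) := by
      rw [hy]
      exact Nat.lt_pow_succ_log_self (by norm_num) _
    exact (Nat.lt_pow_succ_log_self (by norm_num) k).trans_le
      (Nat.pow_le_pow_right (by norm_num) h1)
  obtain ⟨n, rfl⟩ : ∃ n, y = n + 5 := ⟨y - 5, by omega⟩
  have hKn : (n + 1) * K n ≤ S.card := by
    rw [hk]
    refine le_trans ?_ hy2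
    have e1 : 16 ^ (4 * 2 ^ n) = 2 ^ 2 ^ (n + 4) := by
      rw [show (16 : ℕ) = 2 ^ 4 by norm_num, ← pow_mul]
      congr 1
      rw [pow_add]
      ring
    have e2 : 2 ^ 2 ^ (n + 5) = 2 ^ 2 ^ (n + 4) * 2 ^ 2 ^ (n + 4) := by
      rw [← pow_add]
      congr 1
      rw [show n + 5 = (n + 4) + 1 by ring, pow_succ]
      ring
    have e3 : 2 * (n + 1) ≤ 2 ^ 2 ^ (n + 4) := by
      have a1 : n + 4 < 2 ^ (n + 4) := Nat.lt_two_pow_self
      have a2 : 2 ^ (n + 4) < 2 ^ 2 ^ (n + 4) := Nat.lt_two_pow_self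
      have a3 : 2 ^ (n + 4) = 16 * 2 ^ n := by rw [pow_add]; ring
      have a4 : n < 2 ^ n := Nat.lt_two_pow_self
      omega
    unfold K
    rw [e1, e2]
    generalize 2 ^ 2 ^ (n + 4) = Y at *
    nlinarith
  obtain ⟨A, hA⟩ := main_n n S hS hKn
  rw [hk] at hA
  have hkr : (0 : ℝ) < k := by
    have : 0 < k := by omega
    exact_mod_cast this
  -- comparison of the exponents
  have hlog2 : Real.log 2 < 0.7 := by
    have := Real.log_two_lt_d9
    linarith
  have hlog2' : 0 < Real.log 2 := Real.log_pos (by norm_num)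
  have hll : Real.log (Real.log k) ≤ 2 * ((n : ℝ) + 1) := by
    have h1 : Real.log k ≤ 2 ^ (n + 5 + 1) * Real.log 2 := by
      have : (k : ℝ) ≤ 2 ^ 2 ^ (n + 5 + 1) := by exact_mod_cast hy3.le
      have h2 := Real.log_le_log hkr this
      rw [Real.log_pow] at h2
      push_cast at h2
      exact h2
    have h3 : Real.log k ≤ 2 ^ (n + 6) := by
      refine h1.trans ?_
      have : (0 : ℝ) < 2 ^ (n + 5 + 1) := by positivity
      calc (2 : ℝ) ^ (n + 5 + 1) * Real.log 2 ≤ 2 ^ (n + 5 + 1) * 1 :=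
            mul_le_mul_of_nonneg_left (by linarith) this.le
        _ = 2 ^ (n + 6) := by rw [mul_one]
    have h4 : 0 < Real.log k := Real.log_pos (by
      have : 1 < k := by
        have : 2 ≤ 2 ^ 2 ^ (n + 5) := by
          calc 2 = 2 ^ 1 := by norm_num
            _ ≤ 2 ^ 2 ^ (n + 5) := Nat.pow_le_pow_right (by norm_num) Nat.one_le_two_pow
        omega
      exact_mod_cast this)
    have h5 := Real.log_le_log h4 h3
    rw [Real.log_pow] at h5
    push_cast at h5
    have h6 : (5 : ℝ) ≤ n := by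
      have : 5 ≤ n := by omega
      exact_mod_cast this
    nlinarith
  have hll0 : 0 ≤ Real.log (Real.log k) := by
    apply Real.log_nonneg
    have h1 : (2 : ℝ) ^ (2 ^ 10 : ℕ) ≤ k := by exact_mod_cast hc
    have h2 := Real.log_le_log (by positivity) h1
    rw [Real.log_pow] at h2
    have h3 : (0.6 : ℝ) < Real.log 2 := by
      have := Real.log_two_gt_d9
      linarith
    push_cast at h2
    linarith
  apply fails_of_exists S _ (by positivity) A
  refine exists_mono S _ _ (by positivity) ?_ A hA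
  have : Real.log (Real.log k) / (32 * k) ≤ ((n : ℝ) + 1) / (16 * k) := by
    rw [div_le_div_iff₀ (by positivity) (by positivity)]
    nlinarith
  linarith

/-! ### slopes in a generalized arithmetic progression -/

/-- the sums `∑ n_i v_i` with integers `|n_i| ≤ L` -/
noncomputable def gap {m : ℕ} (v : Fin m → ℚ) (L : ℕ) : Finset ℚ :=
  (Fintype.piFinset (fun _ : Fin m => Finset.Icc (-(L : ℤ)) L)).image
    (fun n => ∑ i, (n i : ℚ) * v i)

theorem mem_gap {m : ℕ} (v : Fin m → ℚ) (L : ℕ) (x : ℚ) :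
    x ∈ gap v L ↔ ∃ n : Fin m → ℤ, (∀ i, |n i| ≤ L) ∧ x = ∑ i, (n i : ℚ) * v i := by
  unfold gap
  rw [mem_image]
  constructor
  · rintro ⟨n, hn, rfl⟩
    rw [Fintype.mem_piFinset] at hn
    exact ⟨n, fun i => abs_le.2 (mem_Icc.1 (hn i)), rfl⟩
  · rintro ⟨n, hn, rfl⟩
    exact ⟨n, Fintype.mem_piFinset.2 (fun i => mem_Icc.2 (abs_le.1 (hn i))), rfl⟩

theorem card_gap_le {m : ℕ} (v : Fin m → ℚ) (L : ℕ) : (gap v L).card ≤ (2 * L + 1) ^ m := by
  unfold gap
  refine card_image_le.trans ?_
  rw [Fintype.card_piFinset]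
  simp only [Int.card_Icc, prod_const, card_univ, Fintype.card_fin]
  apply Nat.pow_le_pow_left
  omega

theorem gap_add {m : ℕ} (v : Fin m → ℚ) (L L' : ℕ) (x y : ℚ) (hx : x ∈ gap v L)
    (hy : y ∈ gap v L') : x + y ∈ gap v (L + L') := by
  rw [mem_gap] at *
  obtain ⟨n, hn, rfl⟩ := hx
  obtain ⟨n', hn', rfl⟩ := hy
  refine ⟨fun i => n i + n' i, fun i => ?_, ?_⟩
  · have := abs_add_le (n i) (n' i)
    have h1 := hn i
    have h2 := hn' i
    push_cast
    linarith
  · rw [← sum_add_distrib]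
    apply sum_congr rfl
    intro i _
    push_cast
    ring

theorem gap_neg {m : ℕ} (v : Fin m → ℚ) (L : ℕ) (x : ℚ) (hx : x ∈ gap v L) : -x ∈ gap v L := by
  rw [mem_gap] at *
  obtain ⟨n, hn, rfl⟩ := hx
  refine ⟨fun i => - n i, fun i => ?_, ?_⟩
  · rw [abs_neg]
    exact hn i
  · rw [← sum_neg_distrib]
    apply sum_congr rfl
    intro i _
    push_cast
    ring

theorem zero_mem_gap {m : ℕ} (v : Fin m → ℚ) (L : ℕ) : (0 : ℚ) ∈ gap v L := by
  rw [mem_gap]
  exact ⟨fun _ => 0, fun i => by simp, by simp⟩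

theorem gap_mono {m : ℕ} (v : Fin m → ℚ) (L L' : ℕ) (h : L ≤ L') : gap v L ⊆ gap v L' := by
  intro x hx
  rw [mem_gap] at *
  obtain ⟨n, hn, rfl⟩ := hx
  refine ⟨n, fun i => (hn i).trans (by exact_mod_cast h), rfl⟩

/-- some multiple of the progression grows slowly -/
theorem exists_slow {m H : ℕ} (hm : 1 ≤ m) (hH : 1 ≤ H) (v : Fin m → ℚ) :
    ∃ j : ℕ, 1 ≤ j ∧ j ≤ 46 * m * (m * H ^ 2) ∧
      2 * (gap v ((j + 1) * H)).card ≤ 3 * (gap v (j * H)).card := by
  by_contra hcon
  push Not at hcon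
  obtain ⟨y, hy⟩ : ∃ y, y = m * H ^ 2 := ⟨_, rfl⟩
  rw [← hy] at hcon
  have hy1 : 1 ≤ y := by
    rw [hy]
    exact Nat.mul_pos hm (by positivity)
  have ind : ∀ j : ℕ, j ≤ 46 * m * y →
      (3 / 2 : ℝ) ^ j ≤ ((gap v ((j + 1) * H)).card : ℝ) := by
    intro j
    induction j with
    | zero =>
      intro _
      have : 1 ≤ (gap v ((0 + 1) * H)).card := card_pos.2 ⟨0, zero_mem_gap v _⟩
      have : (1 : ℝ) ≤ (gap v ((0 + 1) * H)).card := by exact_mod_cast this
      simpa using this
    | succ j ih =>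
      intro hj
      have h1 := ih (by omega)
      have h2 := hcon (j + 1) (by omega) hj
      have h3 : (3 : ℝ) * (gap v ((j + 1) * H)).card < 2 * (gap v ((j + 1 + 1) * H)).card := by
        exact_mod_cast h2
      rw [pow_succ]
      linarith
  have h1 := ind (46 * m * y) le_rfl
  have h2 : ((gap v ((46 * m * y + 1) * H)).card : ℝ) ≤
      (2 * ((46 * m * y + 1) * H) + 1 : ℝ) ^ m := by
    exact_mod_cast card_gap_le v ((46 * m * y + 1) * H)
  have hmr : (1 : ℝ) ≤ m := by exact_mod_cast hm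
  have hHr : (1 : ℝ) ≤ H := by exact_mod_cast hH
  have hyr : (1 : ℝ) ≤ y := by exact_mod_cast hy1
  have hyr' : (y : ℝ) = m * H ^ 2 := by
    rw [hy]; push_cast; ring
  have hmH : (m : ℝ) * H ≤ y := by
    rw [hyr']
    nlinarith [mul_nonneg (by linarith : (0 : ℝ) ≤ m) (mul_nonneg (by linarith : (0 : ℝ) ≤ H) (by linarith : (0 : ℝ) ≤ H - 1))]
  have hHy : (H : ℝ) ≤ y := by nlinarith
  have h3 : (2 * ((46 * m * y + 1) * H) + 1 : ℝ) < ((3 / 2 : ℝ) ^ (23 * y)) ^ 2 := by
    have b := one_add_mul_le_pow (show (-2 : ℝ) ≤ 1 / 2 by norm_num) (23 * y)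
    have b2 : (1 + 1 / 2 : ℝ) = 3 / 2 := by norm_num
    rw [b2] at b
    push_cast at b
    have b3 : (1 + 23 * y * (1 / 2) : ℝ) ^ 2 ≤ ((3 / 2 : ℝ) ^ (23 * y)) ^ 2 :=
      pow_le_pow_left₀ (by positivity) b 2
    refine lt_of_lt_of_le ?_ b3
    have b4 : (46 * m * y * H : ℝ) ≤ 46 * (y * y) := by nlinarith
    nlinarith
  have h4 : (2 * ((46 * m * y + 1) * H) + 1 : ℝ) ^ m < (((3 / 2 : ℝ) ^ (23 * y)) ^ 2) ^ m :=
    pow_lt_pow_left₀ h3 (by positivity) (by omega)
  have h5 : (((3 / 2 : ℝ) ^ (23 * y)) ^ 2) ^ m = (3 / 2 : ℝ) ^ (46 * m * y) := by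
    rw [← pow_mul, ← pow_mul]
    congr 1
    ring
  rw [h5] at h4
  linarith

/-- slopes in a generalized arithmetic progression -/
theorem gap_bound {m H : ℕ} (hm : 1 ≤ m) (hH : 1 ≤ H) (v : Fin m → ℚ) (S : Finset ℚ)
    (hSn : S.Nonempty) (hS : (-1 : ℚ) ∉ S)
    (h : ∀ r ∈ S, ∃ n : Fin m → ℤ, (∀ i, |n i| ≤ H) ∧ r + 1 = ∑ i, (n i : ℚ) * v i) :
    Fails S (1 + 1 / (24 * m * Real.log (5 * m * H))) := by
  obtain ⟨j, hj1, hj2, hj3⟩ := exists_slow hm hH v
  have hr : ∀ r ∈ S, r + 1 ∈ gap v H := fun r hr => (mem_gap v H _).2 (h r hr)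
  have hsub : gap v H ⊆ gap v (j * H) := gap_mono v _ _ (by nlinarith)
  -- at least three elements
  have h3 : 3 ≤ (gap v (j * H)).card := by
    obtain ⟨r, hrS⟩ := hSn
    have ht : r + 1 ≠ 0 := fun h0 => hS (by
      have : r = -1 := by linarith
      rwa [this] at hrS)
    have h1 : ({0, r + 1, -(r + 1)} : Finset ℚ) ⊆ gap v (j * H) := by
      intro x hx
      simp only [mem_insert, mem_singleton] at hx
      rcases hx with rfl | rfl | rfl
      · exact zero_mem_gap v _
      · exact hsub (hr r hrS)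
      · exact hsub (gap_neg v _ _ (hr r hrS))
    have h2 : ({0, r + 1, -(r + 1)} : Finset ℚ).card = 3 := by
      rw [card_insert_of_notMem, card_insert_of_notMem, card_singleton]
      · simp only [mem_singleton]
        intro h4
        exact ht (by linarith)
      · simp only [mem_insert, mem_singleton, not_or]
        exact ⟨ht.symm, fun h4 => ht (by linarith)⟩
    rw [← h2]
    exact card_le_card h1
  have hinv : ∀ r ∈ S, (gap v (j * H)).card ≤
      2 * ((gap v (j * H)).filter (fun d => d + (r + 1) ∈ gap v (j * H))).card := by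
    intro r hrS
    have htm : r + 1 ∈ gap v H := hr r hrS
    generalize r + 1 = t at htm ⊢
    have hstep : ∀ d ∈ gap v (j * H), d + t ∈ gap v ((j + 1) * H) := by
      intro d hd
      have := gap_add v _ _ d t hd htm
      rwa [show j * H + H = (j + 1) * H by ring] at this
    have hinj : Function.Injective (fun d : ℚ => d + t) := fun a b hab => by
      simpa using hab
    have e1 : ((gap v (j * H)).filter (fun d => d + t ∈ gap v (j * H))).card =
        (gap v (j * H) ∩ (gap v (j * H)).image (fun d => d + t)).card := by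
      rw [← card_image_of_injective _ hinj]
      congr 1
      ext x
      simp only [mem_image, mem_filter, mem_inter]
      constructor
      · rintro ⟨d, ⟨h1, h2⟩, rfl⟩
        exact ⟨h2, d, h1, rfl⟩
      · rintro ⟨h2, d, h1, rfl⟩
        exact ⟨d, ⟨h1, h2⟩, rfl⟩
    have e2 := card_union_add_card_inter (gap v (j * H)) ((gap v (j * H)).image (fun d => d + t))
    have e3 : (gap v (j * H) ∪ (gap v (j * H)).image (fun d => d + t)).card ≤
        (gap v ((j + 1) * H)).card := by
      apply card_le_card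
      intro x hx
      rcases mem_union.1 hx with hx | hx
      · exact gap_mono v _ _ (Nat.mul_le_mul_right _ (by omega)) hx
      · obtain ⟨d, hd, rfl⟩ := mem_image.1 hx
        exact hstep d hd
    rw [card_image_of_injective _ hinj] at e2
    rw [e1]
    omega
  obtain ⟨A, hA⟩ := main_D S hS _ h3 hinv
  have hmr : (1 : ℝ) ≤ m := by exact_mod_cast hm
  have hHr : (1 : ℝ) ≤ H := by exact_mod_cast hH
  have hmH : (1 : ℝ) ≤ m * H := by nlinarith
  have hlog5 : 0 < Real.log (5 * m * H) := Real.log_pos (by nlinarith)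
  have hcard : Real.log (gap v (j * H)).card ≤ 3 * m * Real.log (5 * m * H) := by
    have c1 : ((gap v (j * H)).card : ℝ) ≤ ((5 * m * H : ℝ) ^ 3) ^ m := by
      have c2 : ((gap v (j * H)).card : ℝ) ≤ (2 * (j * H) + 1 : ℝ) ^ m := by
        exact_mod_cast card_gap_le v (j * H)
      refine c2.trans ?_
      apply pow_le_pow_left₀ (by positivity)
      have c3 : (j : ℝ) ≤ 46 * m * (m * H ^ 2) := by exact_mod_cast hj2
      have c4 : (j : ℝ) * H ≤ 46 * m * (m * H ^ 2) * H :=
        mul_le_mul_of_nonneg_right c3 (by linarith)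
      have c5 : (1 : ℝ) ≤ (m * H) ^ 3 := one_le_pow₀ hmH
      have c6 : (m : ℝ) ^ 2 * H ^ 3 ≤ (m * H) ^ 3 := by
        have : (m : ℝ) ^ 2 * H ^ 3 * 1 ≤ m ^ 2 * H ^ 3 * m :=
          mul_le_mul_of_nonneg_left hmr (by positivity)
        nlinarith
      nlinarith
    have c7 : (0 : ℝ) < (gap v (j * H)).card := by
      have : 0 < (gap v (j * H)).card := by omega
      exact_mod_cast this
    have c8 := Real.log_le_log c7 c1
    rw [Real.log_pow, Real.log_pow] at c8
    push_cast at c8
    linarith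
  have hcard0 : 0 < Real.log (gap v (j * H)).card := Real.log_pos (by
    have : 1 < (gap v (j * H)).card := by omega
    exact_mod_cast this)
  apply fails_of_exists S _ (by positivity) A
  refine exists_mono S _ _ (by positivity) ?_ A hA
  have : 1 / (24 * m * Real.log (5 * m * H)) ≤ 1 / (8 * Real.log (gap v (j * H)).card) := by
    apply one_div_le_one_div_of_le (by positivity)
    nlinarith
  linarith

/-! ### the number of slopes -/

theorem big_mono (S S' : Finset ℚ) (h : S ⊆ S') (A : Finset (ℤ × ℤ)) : big S A ≤ big S' A := by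
  unfold big
  exact max_le_max le_rfl (sup_mono h)

theorem number_of_slopes (ε : ℝ) (hε : 0 < ε) (hε' : ε ≤ Real.exp (-Real.exp 33)) (S : Finset ℚ)
    (hS : (-1 : ℚ) ∉ S) (hc : (S.card : ℝ) ≤ Real.log (Real.log (1 / ε)) / (32 * ε)) :
    Fails S (1 + ε) := by
  obtain ⟨k, hk⟩ : ∃ k, k = ⌊Real.log (Real.log (1 / ε)) / (32 * ε)⌋₊ := ⟨_, rfl⟩
  have h33 : Real.exp 33 ≤ Real.log (1 / ε) := by
    rw [Real.le_log_iff_exp_le (by positivity)]
    rw [le_div_iff₀ hε]
    have := mul_le_mul_of_nonneg_left hε' (Real.exp_pos (Real.exp 33)).le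
    rwa [← Real.exp_add, add_neg_cancel, Real.exp_zero] at this
  have hl33 : 33 ≤ Real.log (Real.log (1 / ε)) := by
    rw [Real.le_log_iff_exp_le ((Real.exp_pos _).trans_le h33)]
    exact h33
  have hx0 : 0 ≤ Real.log (Real.log (1 / ε)) / (32 * ε) := by positivity
  have hk1 : (k : ℝ) ≤ Real.log (Real.log (1 / ε)) / (32 * ε) := by
    rw [hk]
    exact Nat.floor_le hx0
  have hk2 : Real.log (Real.log (1 / ε)) / (32 * ε) < k + 1 := by
    rw [hk]
    exact Nat.lt_floor_add_one _
  have hε1 : ε ≤ 1 := hε'.trans (Real.exp_le_one_iff.2 (neg_nonpos.2 (Real.exp_pos _).le))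
  have hk3 : 1 / ε ≤ k := by
    have h1 : 33 / (32 * ε) ≤ Real.log (Real.log (1 / ε)) / (32 * ε) :=
      div_le_div_of_nonneg_right hl33 (by positivity)
    have h2 : 1 / ε + 1 ≤ 33 / (32 * ε) ∨ 1 / 32 < ε := by
      by_cases h : 1 / 32 < ε
      · right; exact h
      · left
        push Not at h
        rw [le_div_iff₀ (by positivity)]
        have : (1 / ε + 1) * (32 * ε) = 32 + 32 * ε := by
          field_simp
        rw [this]
        linarith
    rcases h2 with h2 | h2
    · linarith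
    · exfalso
      have h3 : Real.exp (-Real.exp 33) ≤ Real.exp (-34) := by
        apply Real.exp_le_exp.2
        have := Real.add_one_le_exp (33 : ℝ)
        linarith
      have h4 : Real.exp (-34) ≤ 1 / 35 := by
        rw [Real.exp_neg, inv_eq_one_div]
        apply one_div_le_one_div_of_le (by norm_num)
        have := Real.add_one_le_exp (34 : ℝ)
        linarith
      linarith
  have hkbig : 2 ^ 2 ^ 10 ≤ k := by
    have h1 : (2 : ℝ) ^ (2 ^ 10 : ℕ) ≤ k := by
      refine le_trans ?_ hk3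
      have h2 : Real.exp (Real.exp 33) ≤ 1 / ε := by
        rw [← Real.le_log_iff_exp_le (by positivity)]
        exact h33
      refine le_trans ?_ h2
      have h3 : (2 : ℝ) ^ (2 ^ 10 : ℕ) ≤ Real.exp 1 ^ (2 ^ 10 : ℕ) := by
        apply pow_le_pow_left₀ (by norm_num)
        have := Real.add_one_le_exp (1 : ℝ)
        linarith
      refine h3.trans ?_
      rw [← Real.exp_nat_mul]
      apply Real.exp_le_exp.2
      have h4 : (2 : ℝ) ^ 33 ≤ Real.exp 33 := by
        have h5 : Real.exp 33 = Real.exp 1 ^ 33 := by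
          rw [← Real.exp_nat_mul]
          norm_num
        rw [h5]
        apply pow_le_pow_left₀ (by norm_num)
        have := Real.add_one_le_exp (1 : ℝ)
        linarith
      refine le_trans ?_ h4
      norm_num
    exact_mod_cast h1
  have hSk : S.card ≤ k := by
    rw [hk]
    exact Nat.le_floor hc
  obtain ⟨S', hSS', hS'⟩ : ∃ S' : Finset ℚ, S ⊆ S' ∧ S'.card = k ∧ (-1 : ℚ) ∉ S' := by
    obtain ⟨T, hT1, hT2⟩ := (Set.infinite_univ (α := ℚ)).sdiff (insert (-1 : ℚ) S).finite_toSet
      |>.exists_subset_card_eq (k - S.card)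
    have hdisj : Disjoint S T := by
      rw [Finset.disjoint_left]
      intro x hx hxT
      have := hT1 (by exact_mod_cast hxT)
      exact this.2 (by simp [hx])
    refine ⟨S ∪ T, subset_union_left, ?_, ?_⟩
    · rw [card_union_of_disjoint hdisj, hT2]
      omega
    · intro h
      rcases mem_union.1 h with h | h
      · exact hS h
      · have := hT1 (by exact_mod_cast h)
        exact this.2 (by simp)
  obtain ⟨A, hA⟩ := loglog_bound S' hS'.2 (by rw [hS'.1]; exact hkbig) 1
  rw [one_mul, hS'.1] at hA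
  have hk0 : (0 : ℝ) < k := lt_of_lt_of_le (by positivity) hk3
  have hle : ε ≤ Real.log (Real.log k) / (32 * k) := by
    have h1 : Real.log (Real.log (1 / ε)) ≤ Real.log (Real.log k) := by
      apply Real.log_le_log ((Real.exp_pos _).trans_le h33)
      exact Real.log_le_log (by positivity) hk3
    rw [le_div_iff₀ (by positivity)] at hk1 ⊢
    linarith
  have h2 := exists_mono S' _ (1 + ε) (by positivity) (by linarith) A hA
  apply fails_of_exists S _ (by positivity) A
  refine lt_of_le_of_lt ?_ h2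
  apply Real.rpow_le_rpow (by positivity) _ (by positivity)
  exact_mod_cast big_mono S S' hSS' A

theorem invariant_bound (S : Finset ℚ) (hS : (-1 : ℚ) ∉ S) (D : Finset ℚ) (hD : 3 ≤ D.card)
    (h : ∀ r ∈ S, D.card ≤ 2 * (D.filter (fun d => d + (r + 1) ∈ D)).card) :
    Fails S (1 + 1 / (8 * Real.log D.card)) := by
  obtain ⟨A, hA⟩ := main_D S hS D hD h
  have : 0 < Real.log D.card := Real.log_pos (by
    have : 1 < D.card := by omega
    exact_mod_cast this)
  exact fails_of_exists S _ (by positivity) A hA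

end Pool.Agent.H989.Slopes
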