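import Pool.Agent.H989.Slopes

/-! # Structured sets of slopes (helper file of helper989) -/

set_option autoImplicit false

namespace Pool.Agent.H989.Slopes

open Finset

theorem sum_collK (K : ℕ) (D : Finset ℚ) (t : ℚ) (ht : t ≠ 0)
    (h : D.card ≤ K * (D.filter (fun d => d + t ∈ D)).card) :
    2 ^ D.card * D.card ≤ 4 * K * ∑ U ∈ D.powerset, (coll D U t).card := by
  have h1 : ∑ U ∈ D.powerset, (coll D U t).card =
      ∑ d ∈ D.filter (fun d => d + t ∈ D), (D.powerset.filter (fun U => d ∈ U ∧ d + t ∉ U)).card := by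
    have e1 : ∀ U ∈ D.powerset, (coll D U t).card =
        ∑ d ∈ D.filter (fun d => d + t ∈ D), if d ∈ U ∧ d + t ∉ U then 1 else 0 := by
      intro U _
      rw [← card_filter, filter_filter]
      unfold coll
      congr 1
      ext d
      simp only [mem_filter]
      tauto
    rw [sum_congr rfl e1, sum_comm]
    apply sum_congr rfl
    intro d _
    rw [card_filter]
  rw [h1]
  have h2 : ∀ d ∈ D.filter (fun d => d + t ∈ D),
      2 ^ D.card ≤ 4 * (D.powerset.filter (fun U => d ∈ U ∧ d + t ∉ U)).card := by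
    intro d hd
    rw [mem_filter] at hd
    exact card_powerset_filter D d (d + t) hd.1 hd.2 (fun h => ht (by linarith))
  have h3 := sum_le_sum h2
  rw [sum_const, smul_eq_mul, ← mul_sum] at h3
  have h4 : 2 ^ D.card * D.card ≤ 2 ^ D.card * (K * (D.filter (fun d => d + t ∈ D)).card) :=
    Nat.mul_le_mul_left _ h
  refine h4.trans ?_
  calc 2 ^ D.card * (K * (D.filter (fun d => d + t ∈ D)).card)
      = K * ((D.filter (fun d => d + t ∈ D)).card * 2 ^ D.card) := by ring
    _ ≤ K * (4 * ∑ i ∈ D.filter (fun d => d + t ∈ D),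
          (D.powerset.filter (fun U => i ∈ U ∧ i + t ∉ U)).card) := Nat.mul_le_mul_left _ h3
    _ = _ := by ring

/-- almost invariant sets of differences give bad exponents -/
theorem main_DK (K : ℕ) (hK : 2 ≤ K) (S : Finset ℚ) (hS : (-1 : ℚ) ∉ S) (D : Finset ℚ) (hD : 3 ≤ D.card)
    (h : ∀ r ∈ S, D.card ≤ K * (D.filter (fun d => d + (r + 1) ∈ D)).card) :
    ∃ A : Finset (ℤ × ℤ), (big S A : ℝ) ^ (1 + 1 / (4 * K * Real.log D.card)) <
      (proj (-1) A).card := by
  choose F f1 f2 f3 using exists_shift_set D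
  obtain ⟨A, a1, a2, a3⟩ := exists_prod_family D.powerset F
  refine ⟨A, ?_⟩
  simp only [f1, prod_const, card_powerset] at a1
  rw [a1]
  have hNr : (3 : ℝ) ≤ D.card := by exact_mod_cast hD
  have hN0 : (0 : ℝ) < D.card := by linarith
  obtain ⟨ℓ, hℓ⟩ : ∃ ℓ : ℝ, ℓ = Real.log D.card := ⟨_, rfl⟩
  have hlog2 : Real.log 2 + 1 / 8 ≤ ℓ := by
    have e : Real.log 2 + Real.log (3 / 2) ≤ ℓ := by
      rw [← Real.log_mul (by norm_num) (by norm_num), hℓ]
      exact Real.log_le_log (by norm_num) (by norm_num; linarith)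
    have e2 : (1 : ℝ) / 8 ≤ Real.log (3 / 2) := by
      have := Real.one_sub_inv_le_log_of_pos (show (0 : ℝ) < 3 / 2 by norm_num)
      norm_num at this ⊢
      linarith
    linarith
  have hlog2' : 0 < Real.log 2 := Real.log_pos (by norm_num)
  have hℓ0 : 1 / 8 < ℓ := by linarith
  obtain ⟨Q, hQ⟩ : ∃ Q : ℝ, Q = 2 ^ D.card := ⟨_, rfl⟩
  have hQ0 : 0 < Q := by rw [hQ]; positivity
  have hKr : (2 : ℝ) ≤ K := by exact_mod_cast hK
  have hK8 : 1 / (4 * (K : ℝ)) ≤ 1 / 8 := by
    apply one_div_le_one_div_of_le (by norm_num)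
    linarith
  obtain ⟨g, hg⟩ : ∃ g : ℝ, g = 1 / (4 * (K : ℝ)) := ⟨_, rfl⟩
  have hg0 : 0 < g := by rw [hg]; positivity
  rw [← hg] at hK8
  have hexpN : Real.exp ℓ = D.card := by rw [hℓ, Real.exp_log hN0]
  -- the projections with slopes in `S`
  have hr : ∀ r ∈ S, ((proj r A).card : ℝ) ≤ Real.exp (Q * (ℓ - g)) := by
    intro r hr
    have h1 : ((proj r A).card : ℝ) ≤ ∏ U ∈ D.powerset, ((proj r (F U)).card : ℝ) := by
      exact_mod_cast a2 r
    have h2 : ∀ U ∈ D.powerset, ((proj r (F U)).card : ℝ) ≤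
        Real.exp (ℓ - (coll D U (r + 1)).card / D.card) := by
      intro U _
      have e1 : ((proj r (F U)).card : ℝ) + (coll D U (r + 1)).card ≤ D.card := by
        exact_mod_cast f2 U r
      rw [Real.exp_sub, hexpN, le_div_iff₀ (Real.exp_pos _)]
      have e2 : Real.exp ((coll D U (r + 1)).card / D.card : ℝ) * (1 - (coll D U (r + 1)).card / D.card : ℝ) ≤ 1 := by
        have := Real.add_one_le_exp (-((coll D U (r + 1)).card / D.card : ℝ))
        have e3 : Real.exp ((coll D U (r + 1)).card / D.card : ℝ) * Real.exp (-((coll D U (r + 1)).card / D.card : ℝ)) = 1 := by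
          rw [← Real.exp_add]; simp
        have e4 := mul_le_mul_of_nonneg_left this (Real.exp_pos ((coll D U (r + 1)).card / D.card : ℝ)).le
        rw [e3] at e4
        linarith
      have e5 : ((proj r (F U)).card : ℝ) ≤ D.card * (1 - (coll D U (r + 1)).card / D.card : ℝ) := by
        have : (D.card : ℝ) * (1 - (coll D U (r + 1)).card / D.card : ℝ) = D.card - (coll D U (r + 1)).card := by
          field_simp
        rw [this]
        linarith
      calc ((proj r (F U)).card : ℝ) * Real.exp ((coll D U (r + 1)).card / D.card : ℝ)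
          ≤ (D.card * (1 - (coll D U (r + 1)).card / D.card : ℝ)) * Real.exp ((coll D U (r + 1)).card / D.card : ℝ) :=
            mul_le_mul_of_nonneg_right e5 (Real.exp_pos _).le
        _ = D.card * (Real.exp ((coll D U (r + 1)).card / D.card : ℝ) * (1 - (coll D U (r + 1)).card / D.card : ℝ)) := by ring
        _ ≤ D.card * 1 := mul_le_mul_of_nonneg_left e2 hN0.le
        _ = D.card := mul_one _
    refine h1.trans ((prod_le_prod (fun U _ => by positivity) h2).trans ?_)
    rw [← Real.exp_sum]
    apply Real.exp_le_exp.2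
    rw [sum_sub_distrib, sum_const, card_powerset, nsmul_eq_mul, ← sum_div]
    have h3 := sum_collK K D (r + 1) (fun h0 => hS (by
      have : r = -1 := by linarith
      rwa [this] at hr)) (h r hr)
    have h4 : Q * D.card ≤ 4 * K * ∑ U ∈ D.powerset, ((coll D U (r + 1)).card : ℝ) := by
      rw [hQ]
      exact_mod_cast h3
    have h5 : Q * g ≤ (∑ U ∈ D.powerset, ((coll D U (r + 1)).card : ℝ)) / D.card := by
      rw [hg, mul_one_div, div_le_div_iff₀ (by positivity) hN0]
      linarith
    push_cast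
    rw [← hQ]
    linarith
  have hinf : ((projInf A).card : ℝ) ≤ Real.exp (Q * (ℓ - g)) := by
    have h1 : (projInf A).card ≤ 2 ^ (2 ^ D.card) := by
      refine a3.trans ?_
      refine (prod_le_prod' (fun U _ => f3 U)).trans ?_
      rw [prod_const, card_powerset]
    have h2 : ((projInf A).card : ℝ) ≤ (2 : ℝ) ^ (2 ^ D.card) := by exact_mod_cast h1
    refine h2.trans ?_
    have h3 : (2 : ℝ) ^ (2 ^ D.card) = Real.exp (Q * Real.log 2) := by
      rw [mul_comm, Real.exp_mul, Real.exp_log (by norm_num), hQ, ← Real.rpow_natCast]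
      push_cast
      rfl
    rw [h3]
    apply Real.exp_le_exp.2
    exact mul_le_mul_of_nonneg_left (by linarith) hQ0.le
  have hbig : (big S A : ℝ) ≤ Real.exp (Q * (ℓ - g)) := by
    unfold big
    rw [Nat.cast_max]
    apply max_le hinf
    by_cases hSn : S.Nonempty
    · obtain ⟨r, hr', he⟩ := Finset.exists_mem_eq_sup S hSn (fun r => (proj r A).card)
      rw [he]
      exact hr r hr'
    · rw [Finset.not_nonempty_iff_eq_empty] at hSn
      subst hSn
      simp
      positivity
  have hexpo : 1 / (4 * K * Real.log D.card) = g / ℓ := by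
    rw [hg, hℓ, div_div]
  rw [hexpo]
  have hδ : 0 ≤ 1 + g / ℓ := by
    have : 0 < ℓ := by linarith
    positivity
  calc (big S A : ℝ) ^ (1 + g / ℓ) ≤ (Real.exp (Q * (ℓ - g))) ^ (1 + g / ℓ) :=
        Real.rpow_le_rpow (by positivity) hbig hδ
    _ = Real.exp (Q * (ℓ - g) * (1 + g / ℓ)) := by rw [← Real.exp_mul]
    _ < Real.exp (Q * ℓ) := by
        apply Real.exp_lt_exp.2
        have hl : 0 < ℓ := by linarith
        have e : Q * (ℓ - g) * (1 + g / ℓ) = Q * ℓ - Q * g ^ 2 / ℓ := by
          field_simp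
          ring
        rw [e]
        have : 0 < Q * g ^ 2 / ℓ := by positivity
        linarith
    _ = ((D.card ^ 2 ^ D.card : ℕ) : ℝ) := by
        rw [mul_comm, Real.exp_mul, hexpN, hQ]
        have e := Real.rpow_natCast (D.card : ℝ) (2 ^ D.card)
        push_cast at e ⊢
        exact e


theorem invariant_boundK (K : ℕ) (hK : 2 ≤ K) (S : Finset ℚ) (hS : (-1 : ℚ) ∉ S) (D : Finset ℚ)
    (hD : 3 ≤ D.card)
    (h : ∀ r ∈ S, D.card ≤ K * (D.filter (fun d => d + (r + 1) ∈ D)).card) :
    Fails S (1 + 1 / (4 * K * Real.log D.card)) := by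
  obtain ⟨A, hA⟩ := main_DK K hK S hS D hD h
  have : 0 < Real.log D.card := Real.log_pos (by
    have : 1 < D.card := by omega
    exact_mod_cast this)
  exact fails_of_exists S _ (by positivity) A hA

open scoped Pointwise in
theorem sumset_bound (K : ℕ) (S B : Finset ℚ) (hSn : S.Nonempty) (hS : (-1 : ℚ) ∉ S)
    (hB : 2 ≤ B.card) (h : (B + S).card ≤ K * B.card) :
    Fails S (1 + 1 / (4 * (K + 1) * Real.log ((K + 1) * B.card))) := by
  obtain ⟨r₀, hr₀⟩ := hSn
  obtain ⟨T, hT⟩ : ∃ T : Finset ℚ, T = S.image (fun r => r + 1) := ⟨_, rfl⟩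
  obtain ⟨D, hD⟩ : ∃ D : Finset ℚ, D = B ∪ (B + T) := ⟨_, rfl⟩
  have hBT : (B + T).card = (B + S).card := by
    have e : B + T = (B + S).image (fun x => x + 1) := by
      ext x
      rw [hT]
      simp only [mem_add, mem_image]
      constructor
      · rintro ⟨b, hb, t, ⟨r, hr, rfl⟩, rfl⟩
        exact ⟨b + r, ⟨b, hb, r, hr, rfl⟩, by ring⟩
      · rintro ⟨y, ⟨b, hb, r, hr, rfl⟩, rfl⟩
        exact ⟨b, hb, r + 1, ⟨r, hr, rfl⟩, by ring⟩
    rw [e, card_image_of_injective _ (fun a b hab => by simpa using hab)]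
  have hDc : D.card ≤ (K + 1) * B.card := by
    rw [hD]
    refine (card_union_le _ _).trans ?_
    rw [hBT]
    nlinarith
  have hBD : B ⊆ D := by rw [hD]; exact subset_union_left
  have hinv : ∀ r ∈ S, D.card ≤ (K + 1) * (D.filter (fun d => d + (r + 1) ∈ D)).card := by
    intro r hr
    refine hDc.trans (Nat.mul_le_mul_left _ (card_le_card ?_))
    intro b hb
    rw [mem_filter]
    refine ⟨hBD hb, ?_⟩
    rw [hD]
    apply mem_union_right
    exact add_mem_add hb (by rw [hT]; exact mem_image_of_mem _ hr)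
  have hK1 : 1 ≤ K := by
    by_contra hcon
    have hK0 : K = 0 := by omega
    rw [hK0, zero_mul] at h
    have hBn : B.Nonempty := card_pos.1 (by omega)
    have : (B + S).Nonempty := hBn.add ⟨r₀, hr₀⟩
    have := card_pos.2 this
    omega
  have ht : r₀ + 1 ≠ 0 := fun h0 => hS (by
    have : r₀ = -1 := by linarith
    rwa [this] at hr₀)
  have h3 : 3 ≤ D.card := by
    by_contra hcon
    have hDB : D = B := (eq_of_subset_of_card_le hBD (by omega)).symm
    have hstep : ∀ b ∈ B, b + (r₀ + 1) ∈ B := by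
      intro b hb
      rw [← hDB, hD]
      apply mem_union_right
      exact add_mem_add hb (by rw [hT]; exact mem_image_of_mem _ hr₀)
    obtain ⟨b, hb⟩ : B.Nonempty := card_pos.1 (by omega)
    have hall : ∀ n : ℕ, b + n * (r₀ + 1) ∈ B := by
      intro n
      induction n with
      | zero => simpa using hb
      | succ n ih =>
        have := hstep _ ih
        push_cast
        rwa [show b + ((n : ℚ) + 1) * (r₀ + 1) = b + n * (r₀ + 1) + (r₀ + 1) by ring]
    have hinj : Function.Injective (fun n : ℕ => b + (n : ℚ) * (r₀ + 1)) := by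
      intro x y hxy
      have : (x : ℚ) * (r₀ + 1) = y * (r₀ + 1) := by simpa using hxy
      exact_mod_cast mul_right_cancel₀ ht this
    exact Set.infinite_of_injective_forall_mem hinj (fun n => mem_coe.2 (hall n)) B.finite_toSet
  obtain ⟨A, hA⟩ := main_DK (K + 1) (by omega) S hS D h3 hinv
  have hlogD : 0 < Real.log D.card := Real.log_pos (by
    have : 1 < D.card := by omega
    exact_mod_cast this)
  have hlog : Real.log D.card ≤ Real.log ((K + 1) * B.card) := by
    apply Real.log_le_log
    · have : 0 < D.card := by omega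
      exact_mod_cast this
    · exact_mod_cast hDc
  have hlogB : 0 < Real.log ((K + 1) * B.card) := hlogD.trans_le hlog
  generalize Real.log ((K + 1) * B.card) = LB at hlog hlogB ⊢
  apply fails_of_exists S _ (by positivity) A
  refine exists_mono S _ _ (by positivity) ?_ A hA
  have : 1 / (4 * (K + 1) * LB) ≤
      1 / (4 * ((K + 1 : ℕ) : ℝ) * Real.log D.card) := by
    apply one_div_le_one_div_of_le (by positivity)
    push_cast
    exact mul_le_mul_of_nonneg_left hlog (by positivity)
  linarith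

end Pool.Agent.H989.Slopes
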